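import Mathlib

-- merged part: Pool.Agent.Work.MP_3d425c_gt.Gn.Gen
section
/-! Small order automorphisms of the line: generic position, gluing, completeness, Baire. -/

namespace Pool.Agent.Work.MP_3d425c_gt.Gn
open Set Filter Topology

/-- Contains no interval. -/
def NIR (S : Set ℝ) : Prop := ∀ u v : ℝ, u < v → ∃ s ∈ Icc u v, s ∉ S

/-- Supported in an open interval. -/
def SuppIn (a b : ℝ) (h : ℝ ≃o ℝ) : Prop := ∀ z, z ∉ Ioo a b → h z = z

theorem SuppIn.mem {a b : ℝ} {h : ℝ ≃o ℝ} (k : SuppIn a b h) {z : ℝ} (hz : z ∈ Ioo a b) :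
    h z ∈ Ioo a b :=
  ⟨k a (fun h => h.1.false) ▸ h.strictMono hz.1, k b (fun h => h.2.false) ▸ h.strictMono hz.2⟩

theorem SuppIn.symm {a b : ℝ} {h : ℝ ≃o ℝ} (k : SuppIn a b h) : SuppIn a b h.symm :=
  fun z hz => by rw [h.symm_apply_eq, k z hz]

theorem SuppIn.mem_iff {a b : ℝ} {h : ℝ ≃o ℝ} (k : SuppIn a b h) {z : ℝ} :
    h z ∈ Ioo a b ↔ z ∈ Ioo a b :=
  ⟨fun hz => by simpa using k.symm.mem hz, k.mem⟩

theorem SuppIn.mono {a b a' b' : ℝ} {h : ℝ ≃o ℝ} (k : SuppIn a b h) (ha : a' ≤ a) (hb : b ≤ b') :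
    SuppIn a' b' h := fun z hz => k z fun p => hz ⟨ha.trans_lt p.1, p.2.trans_le hb⟩

theorem SuppIn.small {a b : ℝ} {h : ℝ ≃o ℝ} (k : SuppIn a b h) {δ : ℝ} (hδ : 0 ≤ δ)
    (hl : b - a ≤ δ) (z : ℝ) : |h z - z| ≤ δ := by
  by_cases hz : z ∈ Ioo a b
  · have p := k.mem hz
    rw [abs_le]
    constructor <;> linarith [p.1, p.2, hz.1, hz.2]
  · rw [k z hz, sub_self, abs_zero]
    exact hδ

theorem small_symm {h : ℝ ≃o ℝ} {δ : ℝ} (k : ∀ z, |h z - z| ≤ δ) (z : ℝ) :
    |h.symm z - z| ≤ δ := by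
  have := k (h.symm z)
  rwa [h.apply_symm_apply, abs_sub_comm] at this

/-- The tent over an interval. -/
noncomputable def tent (a b x : ℝ) : ℝ := max 0 (min (x - a) (b - x))

theorem tent_lip (a b x y : ℝ) (h : x ≤ y) : tent a b x - tent a b y ≤ y - x := by
  unfold tent
  simp only [max_def, min_def]
  split_ifs <;> linarith

theorem tent_pos {a b x : ℝ} (h : x ∈ Ioo a b) : 0 < tent a b x :=
  lt_max_of_lt_right (lt_min (sub_pos.2 h.1) (sub_pos.2 h.2))

theorem tent_zero {a b x : ℝ} (h : x ∉ Ioo a b) : tent a b x = 0 := by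
  unfold tent
  refine max_eq_left ?_
  rcases le_or_gt x a with k | k
  · exact (min_le_left _ _).trans (sub_nonpos.2 k)
  · exact (min_le_right _ _).trans (sub_nonpos.2 (not_lt.1 fun k' => h ⟨k, k'⟩))

theorem exists_tent (a b : ℝ) {t : ℝ} (h0 : 0 ≤ t) (h1 : t < 1) :
    ∃ h : ℝ ≃o ℝ, ∀ x, h x = x + t * tent a b x := by
  have sm : StrictMono fun x => x + t * tent a b x := fun x y hxy => by
    have := tent_lip a b x y hxy.le
    have k : t * (tent a b x - tent a b y) ≤ t * (y - x) := mul_le_mul_of_nonneg_left this h0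
    have k' : t * (y - x) < 1 * (y - x) := mul_lt_mul_of_pos_right h1 (sub_pos.2 hxy)
    simp only
    nlinarith
  have co : Continuous fun x => x + t * tent a b x := by unfold tent; fun_prop
  have su : Function.Surjective fun x => x + t * tent a b x := fun y => by
    have e : ∀ x, x ∉ Ioo a b → x + t * tent a b x = x := fun x hx => by
      rw [tent_zero hx, mul_zero, add_zero]
    have := intermediate_value_univ (min y a) (max y b) co
    refine this ⟨?_, ?_⟩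
    · rw [e _ fun p => p.1.not_ge (min_le_right _ _)]
      exact min_le_left _ _
    · rw [e _ fun p => p.2.not_ge (le_max_right _ _)]
      exact le_max_left _ _
  exact ⟨sm.orderIsoOfSurjective _ su, fun _ => rfl⟩

/-- First generic step: the coincidence set contains no interval. -/
theorem gen_ni {a b : ℝ} {S : Set ℝ} (u v : ℝ → ℝ) (hu : ∀ s ∈ S, u s ∈ Ioo a b) {δ : ℝ}
    (hδ : 0 < δ) : ∃ h : ℝ ≃o ℝ, SuppIn a b h ∧ (∀ z, |h z - z| ≤ δ) ∧
      NIR {s | s ∈ S ∧ h (u s) = v s} := by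
  have hc : (⋃ r : ℚ, {t : ℝ | (r : ℝ) ∈ S ∧ u r + t * tent a b (u r) = v r}).Countable := by
    refine countable_iUnion fun r => Set.Subsingleton.countable fun t ht t' ht' => ?_
    have p := tent_pos (hu _ ht.1)
    have : t * tent a b (u r) = t' * tent a b (u r) := by linarith [ht.2, ht'.2]
    exact mul_right_cancel₀ p.ne' this
  have hm : 0 < min 1 (δ / (|b - a| + 1)) := lt_min one_pos (by positivity)
  obtain ⟨t, ht, t0, t1⟩ := (hc.dense_compl ℝ).exists_between hm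
  obtain ⟨h, e⟩ := exists_tent a b t0.le (t1.trans_le (min_le_left _ _))
  refine ⟨h, fun z hz => by rw [e, tent_zero hz, mul_zero, add_zero], fun z => ?_,
    fun x y hxy => ?_⟩
  · have k0 : 0 ≤ tent a b z := le_max_left _ _
    have k1 : tent a b z ≤ |b - a| + 1 := by
      have := le_abs_self (b - a)
      have := abs_nonneg (b - a)
      unfold tent
      simp only [max_def, min_def]
      split_ifs <;> linarith
    have k2 := t1.trans_le (min_le_right _ _)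
    rw [lt_div_iff₀ (by positivity)] at k2
    rw [e, add_sub_cancel_left, abs_of_nonneg (mul_nonneg t0.le k0)]
    nlinarith
  · obtain ⟨r, r1, r2⟩ := exists_rat_btwn hxy
    exact ⟨r, ⟨r1.le, r2.le⟩, fun p => ht (mem_iUnion.2 ⟨r, p.1, by rw [← e]; exact p.2⟩)⟩

private theorem pl_up {q q' x y : ℝ} (hx : x ∈ Ioo q q') (hy : y ∈ Ioo q q') (h : x ≤ y) :
    ∃ χ : ℝ ≃o ℝ, χ x = y ∧ SuppIn q q' χ := by
  have a1 : 0 < x - q := sub_pos.2 hx.1
  have a2 : 0 < q' - x := sub_pos.2 hx.2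
  have a3 : 0 < y - q := sub_pos.2 hy.1
  have a4 : 0 < q' - y := sub_pos.2 hy.2
  obtain ⟨s, hs⟩ : ∃ s, s = (y - q) / (x - q) := ⟨_, rfl⟩
  obtain ⟨t, ht⟩ : ∃ t, t = (q' - y) / (q' - x) := ⟨_, rfl⟩
  have s0 : 0 < s := hs ▸ div_pos a3 a1
  have t0 : 0 < t := ht ▸ div_pos a4 a2
  have s1 : 1 ≤ s := hs ▸ (one_le_div a1).2 (by linarith)
  have t1 : t ≤ 1 := ht ▸ (div_le_one a2).2 (by linarith)
  have s2 : s * (x - q) = y - q := hs ▸ div_mul_cancel₀ _ a1.ne'
  have t2 : t * (q' - x) = q' - y := ht ▸ div_mul_cancel₀ _ a2.ne'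
  have sm : StrictMono fun z => max z (min (q + s * (z - q)) (q' - t * (q' - z))) :=
    fun z w hzw => max_lt_max hzw (min_lt_min (by nlinarith) (by nlinarith))
  have co : Continuous fun z => max z (min (q + s * (z - q)) (q' - t * (q' - z))) := by fun_prop
  have out : ∀ z, z ∉ Ioo q q' → max z (min (q + s * (z - q)) (q' - t * (q' - z))) = z :=
    fun z hz => by
    refine max_eq_left ?_
    rcases le_or_gt z q with k | k
    · exact (min_le_left _ _).trans (by nlinarith)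
    · have k' : q' ≤ z := not_lt.1 fun k' => hz ⟨k, k'⟩
      exact (min_le_right _ _).trans (by nlinarith)
  have su : Function.Surjective fun z => max z (min (q + s * (z - q)) (q' - t * (q' - z))) :=
    fun w => by
    refine intermediate_value_univ (min w q) (max w q') co ⟨?_, ?_⟩
    · rw [out _ fun p => p.1.not_ge (min_le_right _ _)]
      exact min_le_left _ _
    · rw [out _ fun p => p.2.not_ge (le_max_right _ _)]
      exact le_max_left _ _
  refine ⟨sm.orderIsoOfSurjective _ su, ?_, out⟩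
  change max x (min (q + s * (x - q)) (q' - t * (q' - x))) = y
  rw [s2, t2, add_sub_cancel, sub_sub_cancel, min_self, max_eq_right h]

theorem pl_one {q q' x y : ℝ} (hx : x ∈ Ioo q q') (hy : y ∈ Ioo q q') :
    ∃ χ : ℝ ≃o ℝ, χ x = y ∧ SuppIn q q' χ := by
  rcases le_total x y with h | h
  · exact pl_up hx hy h
  · obtain ⟨χ, e, k⟩ := pl_up hy hx h
    exact ⟨χ.symm, by rw [← e, χ.symm_apply_apply], k.symm⟩

private theorem pl_base {α β : ℝ} {A B : Set ℝ} (hA : IsClosed A) (hA' : NIR A)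
    (hB : IsCompact B) (hsub : B ⊆ Ioo α β) :
    ∃ χ : ℝ ≃o ℝ, SuppIn α β χ ∧ ∀ z ∈ B, χ z ∉ A := by
  rcases B.eq_empty_or_nonempty with rfl | hne
  · exact ⟨OrderIso.refl _, fun _ _ => rfl, fun _ h => h.elim⟩
  obtain ⟨b0, m0, l0⟩ := hB.exists_isLeast hne
  obtain ⟨b1, m1, l1⟩ := hB.exists_isGreatest hne
  obtain ⟨c, c1, c2⟩ := exists_between (hsub m0).1
  obtain ⟨v, ⟨v1, v2⟩, v3⟩ := hA' c b0 c2
  have hv : v ∈ Ioo α β := ⟨c1.trans_le v1, v2.trans_lt (hsub m0).2⟩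
  obtain ⟨l, r, ⟨w1, w2⟩, w3⟩ := mem_nhds_iff_exists_Ioo_subset.1
    ((isOpen_Ioo.inter hA.isOpen_compl).mem_nhds ⟨hv, v3⟩)
  obtain ⟨u, u1, u2⟩ := exists_between w1
  have gap : ∀ z, u ≤ z → z ≤ v → z ∉ A := fun z p p' => (w3 ⟨u1.trans_le p, p'.trans_lt w2⟩).2
  have hu : α < u := (w3 ⟨u1, u2.trans w2⟩).1.1
  obtain ⟨χ, e, k⟩ := pl_one (hsub m1) hv
  rcases le_or_gt u (χ b0) with h | h
  · exact ⟨χ, k, fun z hz => gap _ (h.trans (χ.monotone (l0 hz))) (e ▸ χ.monotone (l1 hz))⟩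
  obtain ⟨ψ, e', k'⟩ := pl_one (q := α) (q' := v) ⟨(k.mem (hsub m0)).1, h.trans u2⟩ ⟨hu, u2⟩
  refine ⟨χ.trans ψ, fun z hz => ?_, fun z hz => gap _ ?_ ?_⟩
  · rw [OrderIso.trans_apply, k z hz, k' z fun p => hz ⟨p.1, p.2.trans hv.2⟩]
  · exact e' ▸ ψ.monotone (χ.monotone (l0 hz))
  · exact k' v (fun p => p.2.false) ▸ ψ.monotone (e ▸ χ.monotone (l1 hz))

private theorem pl_ind {A : Set ℝ} (hA : IsClosed A) (hA' : NIR A) {δ : ℝ} (hδ : 0 < δ)
    (β : ℝ) (n : ℕ) : ∀ (α : ℝ) (B : Set ℝ), IsCompact B → NIR B → B ⊆ Ioo α β →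
      β - α ≤ δ + n * (δ / 2) →
      ∃ χ : ℝ ≃o ℝ, SuppIn α β χ ∧ (∀ z ∈ B, χ z ∉ A) ∧ ∀ z, |χ z - z| ≤ δ := by
  have base : ∀ (α β : ℝ) (B : Set ℝ), IsCompact B → B ⊆ Ioo α β → β - α ≤ δ →
      ∃ χ : ℝ ≃o ℝ, SuppIn α β χ ∧ (∀ z ∈ B, χ z ∉ A) ∧ ∀ z, |χ z - z| ≤ δ :=
    fun α β B hB hs hl =>
      let ⟨χ, k1, k2⟩ := pl_base hA hA' hB hs
      ⟨χ, k1, k2, k1.small hδ.le hl⟩
  induction n with
  | zero => exact fun α B hB _ hs hl => base α β B hB hs (by simpa using hl)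
  | succ n ih =>
    intro α B hB hB' hs hl
    rcases le_or_gt (β - α) δ with h | h
    · exact base α β B hB hs h
    obtain ⟨c, ⟨c1, c2⟩, c3⟩ := hB' (α + δ / 2) (α + δ) (by linarith)
    have d1 : α < c := by linarith
    have d2 : c < β := by linarith
    obtain ⟨χ, k1, k2, k3⟩ := base α c (B ∩ Iic c) (hB.inter_right isClosed_Iic)
      (fun z hz => ⟨(hs hz.1).1, lt_of_le_of_ne hz.2 fun e => c3 (e ▸ hz.1)⟩) (by linarith)
    obtain ⟨ψ, l1, l2, l3⟩ := ih c (B ∩ Ici c) (hB.inter_right isClosed_Ici)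
      (fun u v p => let ⟨s, p1, p2⟩ := hB' u v p; ⟨s, p1, fun r => p2 r.1⟩)
      (fun z hz => ⟨lt_of_le_of_ne hz.2 fun e => c3 (e ▸ hz.1), (hs hz.1).2⟩)
      (by push_cast at hl; linarith)
    have lo : ∀ z, z ≤ c → (χ.trans ψ) z = χ z := fun z hz =>
      l1 _ fun p => p.1.not_ge (k1 c (fun r => r.2.false) ▸ χ.monotone hz)
    have hi : ∀ z, c ≤ z → (χ.trans ψ) z = ψ z := fun z hz => by
      rw [OrderIso.trans_apply, k1 z fun r => r.2.not_ge hz]
    refine ⟨χ.trans ψ, fun z hz => ?_, fun z hz => ?_, fun z => ?_⟩ <;>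
      rcases le_total z c with p | p
    · rw [lo z p, k1 z fun r => hz ⟨r.1, r.2.trans d2⟩]
    · rw [hi z p, l1 z fun r => hz ⟨d1.trans r.1, r.2⟩]
    · exact lo z p ▸ k2 z ⟨hz, p⟩
    · exact hi z p ▸ l2 z ⟨hz, p⟩
    · exact lo z p ▸ k3 z
    · exact hi z p ▸ l3 z

/-- Second generic step: push a compact set without intervals off a closed one. -/
theorem pl_push {α β : ℝ} {A B : Set ℝ} (hA : IsClosed A) (hA' : NIR A) (hB : IsCompact B)
    (hB' : NIR B) (hsub : B ⊆ Ioo α β) {δ : ℝ} (hδ : 0 < δ) :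
    ∃ χ : ℝ ≃o ℝ, SuppIn α β χ ∧ (∀ z ∈ B, χ z ∉ A) ∧ ∀ z, |χ z - z| ≤ δ := by
  obtain ⟨n, hn⟩ := exists_nat_ge ((β - α) / (δ / 2))
  rw [div_le_iff₀ (by linarith)] at hn
  exact pl_ind hA hA' hδ β n α B hB hB' hsub (by linarith)

theorem NIR.image {A S : Set ℝ} (hA : NIR A) (hS : S.OrdConnected) (hAS : A ⊆ S) {u : ℝ → ℝ}
    (hu : StrictMonoOn u S) : NIR (u '' A) := fun x y hxy => by
  by_contra k
  push Not at k
  obtain ⟨s, hs, rfl⟩ := k x ⟨le_rfl, hxy.le⟩
  obtain ⟨s', hs', rfl⟩ := k y ⟨hxy.le, le_rfl⟩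
  obtain ⟨r, hr, hr'⟩ := hA s s' ((hu.lt_iff_lt (hAS hs) (hAS hs')).1 hxy)
  have rS : r ∈ S := hS.out (hAS hs) (hAS hs') hr
  obtain ⟨r', p, e⟩ := k (u r) ⟨hu.monotoneOn (hAS hs) rS hr.1, hu.monotoneOn rS (hAS hs') hr.2⟩
  exact hr' (hu.injOn (hAS p) rS e ▸ p)

/-- Push step: `A` compact without intervals; afterwards no coincidence on `A`. -/
theorem gen_off {p q a b : ℝ} {A : Set ℝ} (hA : IsClosed A) (hA' : NIR A) (hAS : A ⊆ Icc p q)
    {u v : ℝ → ℝ} (uc : ContinuousOn u (Icc p q)) (vc : ContinuousOn v (Icc p q))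
    (um : StrictMonoOn u (Icc p q)) (vm : StrictMonoOn v (Icc p q))
    (hu : ∀ s ∈ Icc p q, u s ∈ Ioo a b) {δ : ℝ} (hδ : 0 < δ) :
    ∃ h : ℝ ≃o ℝ, SuppIn a b h ∧ (∀ z, |h z - z| ≤ δ) ∧ ∀ s ∈ A, h (u s) ≠ v s := by
  have cA : IsCompact A := isCompact_Icc.of_isClosed_subset hA hAS
  obtain ⟨h, k1, k2, k3⟩ := pl_push (α := a) (β := b)
    (cA.image_of_continuousOn (vc.mono hAS)).isClosed (hA'.image ordConnected_Icc hAS vm)
    (cA.image_of_continuousOn (uc.mono hAS)) (hA'.image ordConnected_Icc hAS um)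
    (by rintro _ ⟨s, hs, rfl⟩; exact hu s (hAS hs)) hδ
  exact ⟨h, k1, k3, fun s hs e => k2 _ ⟨s, hs, rfl⟩ ⟨s, hs, e.symm⟩⟩

/-- Two independent small changes destroy all common coincidences. -/
theorem gen_two {p q a₁ b₁ a₂ b₂ : ℝ} {u₁ v₁ u₂ v₂ : ℝ → ℝ}
    (c₁ : ContinuousOn u₁ (Icc p q)) (d₁ : ContinuousOn v₁ (Icc p q))
    (c₂ : ContinuousOn u₂ (Icc p q)) (d₂ : ContinuousOn v₂ (Icc p q))
    (m₂ : StrictMonoOn u₂ (Icc p q)) (n₂ : StrictMonoOn v₂ (Icc p q))
    (h₁ : ∀ s ∈ Icc p q, u₁ s ∈ Ioo a₁ b₁) (h₂ : ∀ s ∈ Icc p q, u₂ s ∈ Ioo a₂ b₂)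
    {δ : ℝ} (hδ : 0 < δ) :
    ∃ g₁ g₂ : ℝ ≃o ℝ, SuppIn a₁ b₁ g₁ ∧ SuppIn a₂ b₂ g₂ ∧ (∀ z, |g₁ z - z| ≤ δ) ∧
      (∀ z, |g₂ z - z| ≤ δ) ∧ ∀ s ∈ Icc p q, g₁ (u₁ s) = v₁ s → g₂ (u₂ s) ≠ v₂ s := by
  obtain ⟨g₁, k1, k2, k3⟩ := gen_ni u₁ v₁ h₁ hδ
  have hcl : IsClosed {s | s ∈ Icc p q ∧ g₁ (u₁ s) = v₁ s} :=
    isClosed_Icc.isClosed_eq (g₁.continuous.comp_continuousOn c₁) d₁
  obtain ⟨g₂, l1, l2, l3⟩ := gen_off hcl k3 (fun _ h => h.1) c₂ d₂ m₂ n₂ h₂ hδ
  exact ⟨g₁, g₂, k1, l1, k2, l2, fun s hs e => l3 s ⟨hs, e⟩⟩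

/-- Changes on pairwise disjoint intervals glue to one order automorphism. -/
theorem glue {ι : Type*} (a b : ι → ℝ) (h : ι → ℝ ≃o ℝ) (hs : ∀ i, SuppIn (a i) (b i) (h i))
    (hd : ∀ i j, i ≠ j → Disjoint (Ioo (a i) (b i)) (Ioo (a j) (b j))) :
    ∃ H : ℝ ≃o ℝ, (∀ i, ∀ z ∈ Ioo (a i) (b i), H z = h i z) ∧
      ∀ z, (∀ i, z ∉ Ioo (a i) (b i)) → H z = z := by
  classical
  have uq : ∀ i j z, z ∈ Ioo (a i) (b i) → z ∈ Ioo (a j) (b j) → i = j := fun i j z p p' =>
    by_contra fun k => disjoint_left.1 (hd i j k) p p'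
  have mk : ∀ g : ι → ℝ ≃o ℝ, ∃ F : ℝ → ℝ, (∀ i, ∀ z ∈ Ioo (a i) (b i), F z = g i z) ∧
      ∀ z, (∀ i, z ∉ Ioo (a i) (b i)) → F z = z := fun g => by
    refine ⟨fun z => if k : ∃ i, z ∈ Ioo (a i) (b i) then g k.choose z else z, fun i z hz => ?_,
      fun z hz => dif_neg (not_exists.2 hz)⟩
    have k : ∃ i, z ∈ Ioo (a i) (b i) := ⟨i, hz⟩
    simp only [dif_pos k]
    rw [uq _ _ z k.choose_spec hz]
  obtain ⟨F, f1, f2⟩ := mk h
  have up : ∀ x y, x < y → (∀ i, x ∈ Ioo (a i) (b i) → y ∉ Ioo (a i) (b i)) → F x < y :=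
    fun x y hxy k => by
    by_cases e : ∃ i, x ∈ Ioo (a i) (b i)
    · obtain ⟨i, hi⟩ := e
      rw [f1 i x hi]
      exact ((hs i).mem hi).2.trans_le (not_lt.1 fun p => k i hi ⟨hi.1.trans hxy, p⟩)
    · rw [f2 x (not_exists.1 e)]
      exact hxy
  have sm : StrictMono F := fun x y hxy => by
    by_cases e : ∃ i, y ∈ Ioo (a i) (b i)
    · obtain ⟨i, hi⟩ := e
      rw [f1 i y hi]
      by_cases e' : x ∈ Ioo (a i) (b i)
      · rw [f1 i x e']
        exact (h i).strictMono hxy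
      · have m := (hs i).mem hi
        refine up x _ ((not_lt.1 fun p => e' ⟨p, hxy.trans hi.2⟩).trans_lt m.1) fun j p p' => ?_
        exact e' (uq _ _ _ p' m ▸ p)
    · rw [f2 y (not_exists.1 e)]
      exact up x y hxy fun i _ => not_exists.1 e i
  have su : Function.Surjective F := fun y => by
    by_cases e : ∃ i, y ∈ Ioo (a i) (b i)
    · obtain ⟨i, hi⟩ := e
      exact ⟨(h i).symm y, by rw [f1 i _ ((hs i).symm.mem hi), (h i).apply_symm_apply]⟩
    · exact ⟨y, f2 y (not_exists.1 e)⟩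
  exact ⟨sm.orderIsoOfSurjective _ su, f1, f2⟩

/-- In a bounded interval only finitely many disjoint intervals are long. -/
theorem finite_long {ι : Type*} (a b : ι → ℝ) {A B : ℝ} (S : Set ι)
    (hb : ∀ i ∈ S, A ≤ a i ∧ b i ≤ B)
    (hd : ∀ i ∈ S, ∀ j ∈ S, i ≠ j → Disjoint (Ioo (a i) (b i)) (Ioo (a j) (b j))) {δ : ℝ}
    (hδ : 0 < δ) : {i | i ∈ S ∧ δ < b i - a i}.Finite := by
  refine Set.Finite.of_finite_image (f := fun i => ⌊a i / δ⌋)
    ((Set.finite_Icc ⌊A / δ⌋ ⌊B / δ⌋).subset ?_) fun i hi j hj e => ?_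
  · rintro _ ⟨i, hi, rfl⟩
    have := hb i hi.1
    exact ⟨Int.floor_mono (div_le_div_of_nonneg_right this.1 hδ.le),
      Int.floor_mono (div_le_div_of_nonneg_right (by linarith [hi.2]) hδ.le)⟩
  · by_contra k
    have e1 := Int.abs_sub_lt_one_of_floor_eq_floor e
    rw [← sub_div, abs_div, abs_of_pos hδ, div_lt_one hδ, abs_lt] at e1
    obtain ⟨z, z1, z2⟩ := exists_between (show max (a i) (a j) < min (b i) (b j) by
      rw [max_lt_iff, lt_min_iff, lt_min_iff]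
      refine ⟨⟨?_, ?_⟩, ?_, ?_⟩ <;> linarith [hi.2, hj.2])
    rw [max_lt_iff] at z1
    rw [lt_min_iff] at z2
    exact disjoint_left.1 (hd i hi.1 j hj.1 k) ⟨z1.1, z2.1⟩ ⟨z1.2, z2.2⟩

/-- A point that lies on the boundary of none of countably many open sets. -/
theorem baire_bd {X ι : Type*} [TopologicalSpace X] [BaireSpace X] [Countable ι] (O : ι → Set X)
    (hO : ∀ i, IsOpen (O i)) : ∀ᶠ x in residual X, ∀ i, x ∈ closure (O i) → x ∈ O i := by
  refine eventually_countable_forall.2 fun i => ?_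
  refine residual_of_dense_open (s := {x | x ∈ closure (O i) → x ∈ O i}) ?_ fun x => ?_
  · have : {x | x ∈ closure (O i) → x ∈ O i} = (closure (O i))ᶜ ∪ O i := by
      ext x
      exact imp_iff_not_or
    rw [this]
    exact isClosed_closure.isOpen_compl.union (hO i)
  · by_cases k : x ∈ closure (O i)
    · exact closure_mono (show O i ⊆ {x | x ∈ closure (O i) → x ∈ O i} from fun y hy _ => hy) k
    · exact subset_closure fun p => absurd p k

/-- The same inside a nonempty open set. -/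
theorem baire_pt {X ι : Type*} [TopologicalSpace X] [BaireSpace X] [Countable ι] (O : ι → Set X)
    (hO : ∀ i, IsOpen (O i)) {U : Set X} (hU : IsOpen U) (hne : U.Nonempty) :
    ∃ x ∈ U, ∀ i, x ∈ closure (O i) → x ∈ O i :=
  let ⟨x, h1, h2⟩ := (dense_of_mem_residual (baire_bd O hO)).inter_open_nonempty U hU hne
  ⟨x, h1, h2⟩

/-- Order automorphisms of the line supported in a fixed interval. -/
def Sup (a b : ℝ) : Type := {f : ℝ ≃o ℝ // SuppIn a b f}

namespace Sup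
open BoundedContinuousFunction
variable {a b : ℝ}

noncomputable def dev (f : ℝ ≃o ℝ) (hf : SuppIn a b f) : ℝ →ᵇ ℝ :=
  ofNormedAddCommGroup (fun x => f x - x) (f.continuous.sub continuous_id) |b - a|
    (hf.small (abs_nonneg _) (le_abs_self _))

noncomputable def emb (f : Sup a b) : (ℝ →ᵇ ℝ) × (ℝ →ᵇ ℝ) := (dev f.1 f.2, dev f.1.symm f.2.symm)

theorem emb_inj : Function.Injective (emb : Sup a b → _) := fun f g e =>
  Subtype.ext (RelIso.ext fun x => by
    have : f.1 x - x = g.1 x - x := congrArg (fun p : (ℝ →ᵇ ℝ) × (ℝ →ᵇ ℝ) => p.1 x) e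
    linarith)

noncomputable instance : MetricSpace (Sup a b) := MetricSpace.induced emb emb_inj inferInstance

instance : Inhabited (Sup a b) := ⟨⟨OrderIso.refl ℝ, fun _ _ => rfl⟩⟩

theorem dist_le_iff {f g : Sup a b} {ε : ℝ} (hε : 0 ≤ ε) : dist f g ≤ ε ↔
    (∀ x, |f.1 x - g.1 x| ≤ ε) ∧ ∀ x, |f.1.symm x - g.1.symm x| ≤ ε := by
  change dist (emb f) (emb g) ≤ ε ↔ _
  rw [Prod.dist_eq, max_le_iff, BoundedContinuousFunction.dist_le hε,
    BoundedContinuousFunction.dist_le hε]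
  refine and_congr (forall_congr' fun x => ?_) (forall_congr' fun x => ?_)
  · change |f.1 x - x - (g.1 x - x)| ≤ ε ↔ _
    rw [sub_sub_sub_cancel_right]
  · change |f.1.symm x - x - (g.1.symm x - x)| ≤ ε ↔ _
    rw [sub_sub_sub_cancel_right]

theorem cont_emb : Continuous (emb : Sup a b → _) := continuous_induced_dom

theorem cont_eval : Continuous fun p : Sup a b × ℝ => p.1.1 p.2 := by
  have : Continuous fun p : Sup a b × ℝ => (emb p.1).1 p.2 + p.2 :=
    (continuous_eval.comp (((continuous_fst.comp cont_emb).comp continuous_fst).prodMk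
      continuous_snd)).add continuous_snd
  exact this.congr fun p => sub_add_cancel _ _

theorem cont_symm : Continuous fun p : Sup a b × ℝ => p.1.1.symm p.2 := by
  have : Continuous fun p : Sup a b × ℝ => (emb p.1).2 p.2 + p.2 :=
    (continuous_eval.comp (((continuous_snd.comp cont_emb).comp continuous_fst).prodMk
      continuous_snd)).add continuous_snd
  exact this.congr fun p => sub_add_cancel _ _

instance : CompleteSpace (Sup a b) := by
  have iso : Isometry (emb : Sup a b → _) := fun _ _ => rfl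
  refine (completeSpace_iff_isComplete_range iso.isUniformInducing).2 (IsClosed.isComplete ?_)
  have e : range (emb : Sup a b → _) = {p | (∀ x y, x ≤ y → p.1 x + x ≤ p.1 y + y) ∧
      (∀ x, p.1 (p.2 x + x) + (p.2 x + x) = x) ∧ (∀ x, p.2 (p.1 x + x) + (p.1 x + x) = x) ∧
      ∀ x, x ∉ Ioo a b → p.1 x = 0} := by
    ext p
    constructor
    · rintro ⟨f, rfl⟩
      have e1 : ∀ x, (emb f).1 x + x = f.1 x := fun x => sub_add_cancel _ _
      have e2 : ∀ x, (emb f).2 x + x = f.1.symm x := fun x => sub_add_cancel _ _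
      refine ⟨fun x y h => ?_, fun x => ?_, fun x => ?_, fun x hx => sub_eq_zero.2 (f.2 x hx)⟩
      · rw [e1, e1]
        exact f.1.monotone h
      · rw [e1, e2, f.1.apply_symm_apply]
      · rw [e2, e1, f.1.symm_apply_apply]
    · rintro ⟨h1, h2, h3, h4⟩
      have inj : Function.Injective fun x => p.1 x + x :=
        Function.LeftInverse.injective (g := fun x => p.2 x + x) h3
      have sm : StrictMono fun x => p.1 x + x := Monotone.strictMono_of_injective h1 inj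
      obtain ⟨f, hf⟩ : ∃ f : ℝ ≃o ℝ, ∀ x, f x = p.1 x + x :=
        ⟨sm.orderIsoOfSurjective _ fun y => ⟨p.2 y + y, h2 y⟩, fun _ => rfl⟩
      refine ⟨⟨f, fun x hx => by rw [hf, h4 x hx, zero_add]⟩, Prod.ext ?_ ?_⟩
      · ext x
        change f x - x = _
        rw [hf, add_sub_cancel_right]
      · ext x
        change f.symm x - x = _
        rw [f.symm_apply_eq.2 ((hf _).trans (h2 x)).symm, add_sub_cancel_right]
  have v1 : ∀ x, Continuous fun p : (ℝ →ᵇ ℝ) × (ℝ →ᵇ ℝ) => p.1 x + x := fun x => by fun_prop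
  have v2 : ∀ x, Continuous fun p : (ℝ →ᵇ ℝ) × (ℝ →ᵇ ℝ) => p.2 x + x := fun x => by fun_prop
  rw [e]
  simp only [ofPred_and, ofPred_forall]
  refine (isClosed_iInter fun x => isClosed_iInter fun y => isClosed_iInter fun _ =>
    isClosed_le (v1 x) (v1 y)).inter ((isClosed_iInter fun x => isClosed_eq ?_ continuous_const).inter
    ((isClosed_iInter fun x => isClosed_eq ?_ continuous_const).inter
    (isClosed_iInter fun x => isClosed_iInter fun _ => isClosed_eq (by fun_prop) continuous_const)))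
  · exact (continuous_eval.comp (continuous_fst.prodMk (v2 x))).add (v2 x)
  · exact (continuous_eval.comp (continuous_snd.prodMk (v1 x))).add (v1 x)

theorem unif (f : ℝ ≃o ℝ) (hf : SuppIn a b f) {ε : ℝ} (hε : 0 < ε) :
    ∃ δ > 0, ∀ x y, |x - y| ≤ δ → |f x - f y| ≤ ε := by
  have cs : HasCompactSupport fun x => f x - x :=
    HasCompactSupport.intro (isCompact_Icc (a := a) (b := b)) fun x hx =>
      sub_eq_zero.2 (hf x fun p => hx (Ioo_subset_Icc_self p))
  obtain ⟨δ, hδ, k⟩ := Metric.uniformContinuous_iff_le.1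
    (cs.uniformContinuous_of_continuous (f.continuous.sub continuous_id)) (ε / 2) (by positivity)
  refine ⟨min δ (ε / 2), by positivity, fun x y h => ?_⟩
  have k1 : |f x - x - (f y - y)| ≤ ε / 2 := k (h.trans (min_le_left _ _))
  have k2 := h.trans (min_le_right _ _)
  rw [abs_le] at k1 k2 ⊢
  constructor <;> linarith [k1.1, k1.2, k2.1, k2.2]

/-- Near a given point uniform closeness of the maps is enough. -/
theorem near (f : Sup a b) {ε : ℝ} (hε : 0 < ε) :
    ∃ δ > 0, ∀ g : Sup a b, (∀ x, |g.1 x - f.1 x| ≤ δ) → dist g f ≤ ε := by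
  obtain ⟨δ, hδ, k⟩ := unif f.1.symm f.2.symm hε
  refine ⟨min δ ε, by positivity, fun g hg => (dist_le_iff hε.le).2
    ⟨fun x => (hg x).trans (min_le_right _ _), fun x => ?_⟩⟩
  have := k (f.1 (g.1.symm x)) x (by
    have := (hg (g.1.symm x)).trans (min_le_left _ _)
    rwa [g.1.apply_symm_apply, abs_sub_comm] at this)
  rwa [f.1.symm_apply_apply] at this

/-- Precomposition with a small change is a small change. -/
theorem near_comp (f : Sup a b) {ε : ℝ} (hε : 0 < ε) :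
    ∃ δ > 0, ∀ (g : Sup a b) (h : ℝ → ℝ), (∀ x, |h x - x| ≤ δ) → (∀ x, g.1 x = f.1 (h x)) →
      dist g f ≤ ε := by
  obtain ⟨η, hη, k⟩ := near f hε
  obtain ⟨δ, hδ, k'⟩ := unif f.1 f.2 hη
  exact ⟨δ, hδ, fun g h p e => k g fun x => by rw [e]; exact k' _ _ (p x)⟩

end Sup

end Pool.Agent.Work.MP_3d425c_gt.Gn
end

-- merged part: Pool.Agent.Work.MP_3d425c_gt.Ht.Defs
section
/-!
Slot systems, leaf graphs and the statements of the two steps of the shear lemma.
-/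

namespace Pool.Agent.Work.MP_3d425c_gt.Ht

open Set Pool.Agent.Work.MP_3d425c_gt.Gn

abbrev Au : Type := ℝ ≃o ℝ

/-- `g` or its inverse -/
def sp (b : Bool) (g : Au) : Au := if b = true then g else g⁻¹

/-- the factor of the incidence `z` in the relation of its cell -/
def fac {W : Type} (j : W × Bool → Au) (sg : W × Bool → Bool) (H : W → Au) (z : W × Bool) : Au :=
  sp (sg z) (j z * H z.1 * (j z)⁻¹)

/-- Cells `C`, arcs `W`; every arc has two ends, `L c` lists the ends at the cell `c`. -/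
structure Cx (W C : Type) where
  cell : W × Bool → C
  j : W × Bool → Au
  sg : W × Bool → Bool
  L : C → List (W × Bool)
  nodup : ∀ c, (L c).Nodup
  mem : ∀ c z, z ∈ L c ↔ cell z = c

/-- the changed data satisfy all cell relations -/
def Cx.Flat {W C : Type} (X : Cx W C) (H : W → Au) : Prop :=
  ∀ c, ((X.L c).map (fac X.j X.sg H)).prod = 1

/-- in-ends: second ends, and both ends of a source -/
def inn {S : Type} (src : S → Bool) (z : S × Bool) : Bool := z.2 || src z.1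

/-- Activity of slot ends. -/
structure Hot {S C : Type} (X : Cx S C) (src : S → Bool) (act : S × Bool → Set ℝ)
    (D : C → Finset ℝ) : Prop where
  a1 : ∀ σ t, src σ = false → X.j (σ, false) t ∈ act (σ, false) →
    t ∈ Ioo (0 : ℝ) 1 ∧ X.j (σ, true) t ∈ act (σ, true)
  a2 : ∀ z s s', s ≤ s' → (∀ d ∈ D (X.cell z), d ∉ Icc s s') → (s ∈ act z ↔ s' ∈ act z)
  a3 : ∀ c s, s ∉ D c → {z | X.cell z = c ∧ s ∈ act z ∧ inn src z = true}.ncard ≤
    {z | X.cell z = c ∧ s ∈ act z ∧ inn src z = false}.ncard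

/-- The hotel lemma. -/
def S_hotel : Prop := ∀ (S C : Type) [Finite S] (X : Cx S C) (src : S → Bool)
  (act : S × Bool → Set ℝ) (D : C → Finset ℝ), Hot X src act D → ∀ Lam : C → Set ℝ,
  (∀ c, ∀ d ∈ D c, d ∉ Lam c) →
  (∀ σ t, src σ = false → X.j (σ, false) t ∈ act (σ, false) →
    X.j (σ, false) t ∈ Lam (X.cell (σ, false)) → X.j (σ, true) t ∈ Lam (X.cell (σ, true))) →
  ∀ x : S → ℝ, (∀ σ b, src σ = true →
    X.j (σ, b) (x σ) ∈ act (σ, b) ∧ X.j (σ, b) (x σ) ∈ Lam (X.cell (σ, b))) →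
  ∃ η > 0, ∀ ε > 0, ∃ δ > 0, ∀ h : S → Au,
    (∀ σ, src σ = true → SuppIn (x σ - η) (x σ + η) (h σ) ∧ ∀ t, |h σ t - t| ≤ δ) →
    ∃ H : S → Au, (∀ σ, src σ = true → H σ = h σ) ∧
      (∀ σ t, src σ = false → X.j (σ, false) t ∉ act (σ, false) → H σ t = t) ∧
      (∀ σ t, |H σ t - t| ≤ ε) ∧ X.Flat H

/-- Two nodes (cell, level) joined by an arc (arc type, level) outside `Z`. -/
def Cx.Adj {W C : Type} (X : Cx W C) (Z : Set (W × ℝ)) (u v : C × ℝ) : Prop :=
  ∃ w t b, t ∈ Ioo (0 : ℝ) 1 ∧ (w, t) ∉ Z ∧ u = (X.cell (w, b), X.j (w, b) t) ∧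
    v = (X.cell (w, !b), X.j (w, !b) t)

/-- A flow with surplus: slot `σ` lies on the arc type `face σ`, runs from the end `dir σ` to the
other end and is active on `U σ`. -/
structure Flow {W C : Type} (X : Cx W C) (S : Type) where
  face : S → W
  dir : S → Bool
  U : S → Set ℝ
  D : C → Finset ℝ
  sub : ∀ σ, U σ ⊆ Ioo (0 : ℝ) 1
  loc : ∀ σ b s s', s ≤ s' → (∀ d ∈ D (X.cell (face σ, b)), d ∉ Icc s s') →
    ((X.j (face σ, b)).symm s ∈ U σ ↔ (X.j (face σ, b)).symm s' ∈ U σ)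
  sur : ∀ c, ∀ s ∈ Ioo (0 : ℝ) 1, s ∉ D c →
    {σ | X.cell (face σ, !dir σ) = c ∧ (X.j (face σ, !dir σ)).symm s ∈ U σ}.ncard <
      {σ | X.cell (face σ, dir σ) = c ∧ (X.j (face σ, dir σ)).symm s ∈ U σ}.ncard

/-- The shear lemma. -/
def S_shear : Prop := ∀ (W C S : Type) [Finite W] [Finite C] [Finite S] (X : Cx W C),
  (∀ z, ∀ t ∈ Ioo (0 : ℝ) 1, X.j z t ∈ Ioo (0 : ℝ) 1) → Nonempty (Flow X S) →
  ∀ (Z : Set (W × ℝ)), Z.Finite → (∀ z ∈ Z, z.2 ∈ Ioo (0 : ℝ) 1) → ∀ u₀ : C × ℝ,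
  u₀.2 ∈ Ioo (0 : ℝ) 1 →
  (∀ z ∈ Z, Relation.ReflTransGen (X.Adj ∅) u₀ (X.cell (z.1, false), X.j (z.1, false) z.2)) →
  (∀ u, Relation.ReflTransGen (X.Adj ∅) u₀ u → {v | Relation.ReflTransGen (X.Adj Z) u v}.Infinite) →
  ∃ η > 0, ∀ ε > 0, ∃ δ > 0, ∀ h : W × ℝ → Au,
    (∀ z ∈ Z, SuppIn (z.2 - η) (z.2 + η) (h z) ∧ ∀ t, |h z t - t| ≤ δ) →
    ∃ H : W → Au, (∀ w, SuppIn 0 1 (H w)) ∧ (∀ w t, |H w t - t| ≤ ε) ∧ X.Flat H ∧
      ∀ z ∈ Z, ∀ t ∈ Ioo (z.2 - η) (z.2 + η), H z.1 t = h z t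

end Pool.Agent.Work.MP_3d425c_gt.Ht
end

-- merged part: Pool.Agent.Work.MP_3d425c_gt.Ht.Match
section
namespace Pool.Agent.Work.MP_3d425c_gt.Ht

open Set Pool.Agent.Work.MP_3d425c_gt.Gn

theorem adj_pair {E : Type} (inn : E → Bool) : ∀ (l : List E) (a b : E), a ∈ l → b ∈ l →
    inn a ≠ inn b → ∃ l₁ x y l₂, l = l₁ ++ x :: y :: l₂ ∧ inn x ≠ inn y
  | [], a, _, ha, _, _ => absurd ha List.not_mem_nil
  | [x], a, b, ha, hb, h => by
    rw [List.mem_singleton] at ha hb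
    exact absurd (by rw [ha, hb]) h
  | x :: y :: l, a, b, ha, hb, h => by
    by_cases e : inn x = inn y
    · have key : ∀ c ∈ x :: y :: l, ∃ c' ∈ y :: l, inn c' = inn c := fun c hc => by
        rcases List.mem_cons.1 hc with rfl | hc
        · exact ⟨y, List.mem_cons_self, e.symm⟩
        · exact ⟨c, hc, rfl⟩
      obtain ⟨a', ha', ea⟩ := key a ha
      obtain ⟨b', hb', eb⟩ := key b hb
      obtain ⟨l₁, u, v, l₂, e', h'⟩ := adj_pair inn (y :: l) a' b' ha' hb' (by rwa [ea, eb])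
      exact ⟨x :: l₁, u, v, l₂, by rw [e']; rfl, h'⟩
    · exact ⟨[], x, y, l, rfl, e⟩

/-- A matching of the in-letters of a list whose cancellation kills the product. -/
structure IsMatch {E : Type} (inn : E → Bool) (l : List E) (m : E → E) : Prop where
  mem : ∀ z ∈ l, inn z = true → m z ∈ l ∧ inn (m z) = false
  inj : ∀ z ∈ l, ∀ z' ∈ l, inn z = true → inn z' = true → m z = m z' → z = z'
  prod : ∀ (Γ : Type) [Group Γ] (g : E → Γ), (∀ z ∈ l, inn z = true → g (m z) = (g z)⁻¹) →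
    (∀ y ∈ l, inn y = false → (∀ z ∈ l, inn z = true → m z ≠ y) → g y = 1) → (l.map g).prod = 1

theorem match_step {E : Type} (inn : E → Bool) (l₁ l₂ l : List E) (a b : E) (m : E → E)
    (ha : inn a = true) (hb : inn b = false) (hm : IsMatch inn (l₁ ++ l₂) m)
    (na : a ∉ l₁ ++ l₂) (nb : b ∉ l₁ ++ l₂)
    (hl : l = l₁ ++ a :: b :: l₂ ∨ l = l₁ ++ b :: a :: l₂) : ∃ m', IsMatch inn l m' := by
  classical
  have hmem : ∀ z, z ∈ l ↔ z = a ∨ z = b ∨ z ∈ l₁ ++ l₂ := fun z => by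
    rcases hl with rfl | rfl <;> simp only [List.mem_append, List.mem_cons] <;> tauto
  have old : ∀ z ∈ l, inn z = true → z ≠ a → z ∈ l₁ ++ l₂ := fun z hz hi hne => by
    rcases (hmem z).1 hz with h | h | h
    · exact absurd h hne
    · rw [h, hb] at hi; exact absurd hi (by simp)
    · exact h
  refine ⟨Function.update m a b, fun z hz hi => ?_, fun z hz z' hz' hi hi' e => ?_,
    fun Γ _ g h1 h2 => ?_⟩
  · by_cases e : z = a
    · rw [e, Function.update_self]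
      exact ⟨(hmem b).2 (Or.inr (Or.inl rfl)), hb⟩
    · rw [Function.update_of_ne e]
      have := hm.mem z (old z hz hi e) hi
      exact ⟨(hmem _).2 (Or.inr (Or.inr this.1)), this.2⟩
  · by_cases e1 : z = a <;> by_cases e2 : z' = a
    · rw [e1, e2]
    · rw [e1, Function.update_self, Function.update_of_ne e2] at e
      exact absurd (e ▸ (hm.mem z' (old z' hz' hi' e2) hi').1) nb
    · rw [e2, Function.update_self, Function.update_of_ne e1] at e
      exact absurd (e ▸ (hm.mem z (old z hz hi e1) hi).1) nb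
    · rw [Function.update_of_ne e1, Function.update_of_ne e2] at e
      exact hm.inj z (old z hz hi e1) z' (old z' hz' hi' e2) hi hi' e
  · have e0 : g b = (g a)⁻¹ := by
      have := h1 a ((hmem a).2 (Or.inl rfl)) ha
      rwa [Function.update_self] at this
    have e1 : ((l₁ ++ l₂).map g).prod = 1 := by
      refine hm.prod Γ g (fun z hz hi => ?_) (fun y hy hi hn => ?_)
      · have := h1 z ((hmem z).2 (Or.inr (Or.inr hz))) hi
        rwa [Function.update_of_ne (fun e : z = a => na (e ▸ hz))] at this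
      · refine h2 y ((hmem y).2 (Or.inr (Or.inr hy))) hi fun z hz hi' => ?_
        by_cases e : z = a
        · rw [e, Function.update_self]
          exact fun e' => nb (e' ▸ hy)
        · rw [Function.update_of_ne e]
          exact hn z (old z hz hi' e) hi'
    rw [← e1]
    rcases hl with rfl | rfl <;> simp [e0]

theorem exists_match {E : Type} (inn : E → Bool) : ∀ (n : ℕ) (l : List E), l.length = n → l.Nodup →
    l.countP inn ≤ l.countP (fun z => !inn z) → ∃ m, IsMatch inn l m := by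
  intro n
  induction n using Nat.strong_induction_on with
  | _ n ih =>
    intro l hn nd hc
    by_cases h : ∃ a ∈ l, inn a = true
    · obtain ⟨a, ha, hi⟩ := h
      have h1 : 0 < l.countP inn := List.countP_pos_iff.2 ⟨a, ha, hi⟩
      obtain ⟨b, hb, hi'⟩ := List.countP_pos_iff.1 (h1.trans_le hc)
      obtain ⟨l₁, x, y, l₂, rfl, hxy⟩ := adj_pair inn l a b ha hb (by
        rw [hi]; intro e; rw [← e] at hi'; simp at hi')
      have nd' : (x :: y :: (l₁ ++ l₂)).Nodup :=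
        ((List.perm_middle.trans ((List.perm_middle (a := y)).cons x)).nodup_iff).1 nd
      rw [List.nodup_cons, List.nodup_cons, List.mem_cons, not_or] at nd'
      obtain ⟨m, hm⟩ := ih (l₁ ++ l₂).length (by rw [← hn]; simp) _ rfl nd'.2.2 (by
        simp only [List.countP_append, List.countP_cons] at hc ⊢
        revert hxy hc
        cases inn x <;> cases inn y <;> simp <;> omega)
      cases ex : inn x
      · exact match_step inn l₁ l₂ _ y x m (by revert hxy; rw [ex]; cases inn y <;> simp) ex hm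
          nd'.2.1 nd'.1.2 (Or.inr rfl)
      · exact match_step inn l₁ l₂ _ x y m ex (by revert hxy; rw [ex]; cases inn y <;> simp) hm
          nd'.1.2 nd'.2.1 (Or.inl rfl)
    · push Not at h
      refine ⟨id, fun z hz hi => absurd hi (h z hz), fun z hz _ _ hi => absurd hi (h z hz),
        fun Γ _ g _ h2 => List.prod_eq_one fun u hu => ?_⟩
      obtain ⟨y, hy, rfl⟩ := List.mem_map.1 hu
      exact h2 y hy (by simpa using h y hy) fun z hz hi => absurd hi (h z hz)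

theorem exists_matcher {E : Type} (inn : E → Bool) : ∃ M : List E → E → E, ∀ l, l.Nodup →
    l.countP inn ≤ l.countP (fun z => !inn z) → IsMatch inn l (M l) := by
  have : ∀ l : List E, ∃ m : E → E, l.Nodup → l.countP inn ≤ l.countP (fun z => !inn z) →
      IsMatch inn l m := fun l => by
    by_cases h : l.Nodup ∧ l.countP inn ≤ l.countP (fun z => !inn z)
    · obtain ⟨m, hm⟩ := exists_match inn _ l rfl h.1 h.2
      exact ⟨m, fun _ _ => hm⟩
    · exact ⟨id, fun h1 h2 => absurd ⟨h1, h2⟩ h⟩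
  choose M hM using this
  exact ⟨M, hM⟩

theorem countP_ncard {E : Type} (l : List E) (nd : l.Nodup) (p : E → Bool) :
    l.countP p = {z | z ∈ l ∧ p z = true}.ncard := by
  classical
  rw [List.countP_eq_length_filter, ← List.toFinset_card_of_nodup (nd.filter _),
    ← Set.ncard_coe_finset]
  congr 1
  ext z
  simp

/-! ### Signed powers -/

theorem sp_conj (b : Bool) (T g : Au) : sp b (T * g * T⁻¹) = T * sp b g * T⁻¹ := by
  cases b <;> simp [sp, mul_assoc]

theorem sp_sp (a b : Bool) (g : Au) : sp a (sp b g) = sp (a == b) g := by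
  cases a <;> cases b <;> simp [sp]

theorem sp_not (a : Bool) (g : Au) : sp (!a) g = (sp a g)⁻¹ := by
  cases a <;> simp [sp]

theorem sp_fix {b : Bool} {g : Au} {s : ℝ} (h : g s = s) : sp b g s = s := by
  cases b
  · exact g.symm_apply_eq.2 h.symm
  · exact h

theorem sp_supp {a b : ℝ} {g : Au} (h : SuppIn a b g) (e : Bool) : SuppIn a b (sp e g) :=
  fun z hz => sp_fix (h z hz)

theorem sp_small {g : Au} {δ : ℝ} (h : ∀ t, |g t - t| ≤ δ) (e : Bool) (t : ℝ) :
    |sp e g t - t| ≤ δ := by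
  cases e
  · exact small_symm h t
  · exact h t

theorem sp_agree {a b : ℝ} {A B : Au} (hB : SuppIn a b B) (h : ∀ s ∈ Ioo a b, A s = B s)
    (e : Bool) : ∀ s ∈ Ioo a b, sp e A s = sp e B s := fun s hs => by
  cases e
  · change A.symm s = B.symm s
    rw [A.symm_apply_eq, h _ (hB.symm.mem hs), B.apply_symm_apply]
  · exact h s hs

theorem conj_apply (T g : Au) (s : ℝ) : (T * g * T⁻¹) s = T (g (T.symm s)) := rfl

theorem mem_Ioo_conj (T : Au) {a b s : ℝ} : s ∈ Ioo (T a) (T b) ↔ T.symm s ∈ Ioo a b := by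
  rw [mem_Ioo, mem_Ioo, T.lt_symm_apply, T.symm_apply_lt]

theorem conj_supp {a b : ℝ} {g : Au} (h : SuppIn a b g) (T : Au) :
    SuppIn (T a) (T b) (T * g * T⁻¹) := fun z hz => by
  rw [conj_apply, h _ (fun k => hz ((mem_Ioo_conj T).2 k)), T.apply_symm_apply]

theorem conj_small (T : Au) (p q : ℝ) {ε : ℝ} (hε : 0 < ε) : ∃ δ > 0, ∀ g : Au, SuppIn p q g →
    (∀ t, |g t - t| ≤ δ) → ∀ u, |(T * g * T⁻¹) u - u| ≤ ε := by
  have uc := (isCompact_Icc (a := p) (b := q)).uniformContinuousOn_of_continuous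
    T.continuous.continuousOn
  obtain ⟨δ, hδ, k⟩ := Metric.uniformContinuousOn_iff_le.1 uc ε hε
  refine ⟨δ, hδ, fun g hg hs u => ?_⟩
  by_cases hu : u ∈ Ioo (T p) (T q)
  · have h1 := (mem_Ioo_conj T).1 hu
    have := k _ (Ioo_subset_Icc_self (hg.mem h1)) _ (Ioo_subset_Icc_self h1) (hs _)
    rwa [T.apply_symm_apply] at this
  · rw [conj_supp hg T u hu, sub_self, abs_zero]
    exact hε.le

theorem exists_gap {F : Set ℝ} (hF : F.Finite) {x : ℝ} (hx : x ∉ F) :
    ∃ η > 0, ∀ t ∈ Icc (x - η) (x + η), t ∉ F := by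
  obtain ⟨η, hη, k⟩ := Metric.isOpen_iff.1 hF.isClosed.isOpen_compl x hx
  refine ⟨η / 2, by positivity, fun t ht => k ?_⟩
  rw [Metric.mem_ball, Real.dist_eq, abs_lt]
  constructor <;> linarith [ht.1, ht.2]

theorem exists_pos_forall {ι : Type} {T : Set ι} (hT : T.Finite) (P : ι → ℝ → Prop)
    (mono : ∀ i η η', 0 < η' → η' ≤ η → P i η → P i η') (h : ∀ i ∈ T, ∃ η > 0, P i η) :
    ∃ η > 0, ∀ i ∈ T, P i η := by
  induction T, hT using Set.Finite.induction_on with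
  | empty => exact ⟨1, one_pos, fun _ h => absurd h (notMem_empty _)⟩
  | insert _ _ ih =>
    obtain ⟨η, hη, k⟩ := ih fun i hi => h i (mem_insert_of_mem _ hi)
    obtain ⟨η', hη', k'⟩ := h _ (mem_insert _ _)
    refine ⟨min η η', lt_min hη hη', fun i hi => ?_⟩
    rcases hi with rfl | hi
    · exact mono _ _ _ (lt_min hη hη') (min_le_right _ _) k'
    · exact mono _ _ _ (lt_min hη hη') (min_le_left _ _) (k i hi)

end Pool.Agent.Work.MP_3d425c_gt.Ht
end

-- merged part: Pool.Agent.Work.MP_3d425c_gt.Ht.Orbit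
section
/-!
The injective dynamics on slot ends.
-/

namespace Pool.Agent.Work.MP_3d425c_gt.Ht

open Set Pool.Agent.Work.MP_3d425c_gt.Gn

/-- all data of the dynamics -/
structure Dyn (S C : Type) where
  X : Cx S C
  src : S → Bool
  act : S × Bool → Set ℝ
  D : C → Finset ℝ
  M : List (S × Bool) → S × Bool → S × Bool
  hot : Hot X src act D
  hM : ∀ l, l.Nodup → l.countP (inn src) ≤ l.countP (fun z => !inn src z) →
    IsMatch (inn src) l (M l)

namespace Dyn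

variable {S C : Type} (P : Dyn S C)

open Classical in
/-- the active ends -/
noncomputable def al (c : C) (s : ℝ) : List (S × Bool) := (P.X.L c).filter fun z => s ∈ P.act z

theorem mem_al {c : C} {s : ℝ} {z : S × Bool} : z ∈ P.al c s ↔ P.X.cell z = c ∧ s ∈ P.act z := by
  simp [al, P.X.mem]

theorem isMatch {c : C} {s : ℝ} (hs : s ∉ P.D c) :
    IsMatch (inn P.src) (P.al c s) (P.M (P.al c s)) := by
  have nd : (P.al c s).Nodup := (P.X.nodup c).filter _
  refine P.hM _ nd ?_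
  rw [countP_ncard _ nd, countP_ncard _ nd]
  have := P.hot.a3 c s hs
  simpa [mem_al, and_assoc] using this

theorem act_iff {z : S × Bool} {s s' : ℝ} (h : ∀ d ∈ P.D (P.X.cell z), d ∉ uIcc s s') :
    s ∈ P.act z ↔ s' ∈ P.act z := by
  rcases le_total s s' with k | k
  · exact P.hot.a2 z s s' k (by rwa [uIcc_of_le k] at h)
  · exact (P.hot.a2 z s' s k (by rwa [uIcc_of_ge k] at h)).symm

theorem al_eq {c : C} {s s' : ℝ} (h : ∀ d ∈ P.D c, d ∉ uIcc s s') : P.al c s = P.al c s' := by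
  classical
  refine List.filter_congr fun z hz => ?_
  have e := (P.X.mem c z).1 hz
  simp only [decide_eq_decide]
  exact P.act_iff (e ▸ h)

/-- the matched out-end -/
noncomputable def out (u : (S × Bool) × ℝ) : S × Bool := P.M (P.al (P.X.cell u.1) u.2) u.1

/-- one step -/
noncomputable def nxt (u : (S × Bool) × ℝ) : (S × Bool) × ℝ :=
  (((P.out u).1, true), P.X.j ((P.out u).1, true) ((P.X.j (P.out u)).symm u.2))

/-- active in-end -/
def Act (u : (S × Bool) × ℝ) : Prop := inn P.src u.1 = true ∧ u.2 ∈ P.act u.1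

def Good (u : (S × Bool) × ℝ) : Prop := P.Act u ∧ u.2 ∉ P.D (P.X.cell u.1)

theorem out_spec {u : (S × Bool) × ℝ} (h : P.Good u) :
    P.X.cell (P.out u) = P.X.cell u.1 ∧ u.2 ∈ P.act (P.out u) ∧ P.out u = ((P.out u).1, false) ∧
      P.src (P.out u).1 = false := by
  obtain ⟨h1, h2⟩ := (P.isMatch h.2).mem u.1 (P.mem_al.2 ⟨rfl, h.1.2⟩) h.1.1
  rw [mem_al] at h1
  rw [inn, Bool.or_eq_false_iff] at h2
  exact ⟨h1.1, h1.2, Prod.ext rfl h2.1, h2.2⟩

theorem nxt_spec {u : (S × Bool) × ℝ} (h : P.Good u) :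
    (P.X.j (P.out u)).symm u.2 ∈ Ioo (0 : ℝ) 1 ∧ P.Act (P.nxt u) := by
  obtain ⟨_, h2, h3, h4⟩ := P.out_spec h
  have := P.hot.a1 (P.out u).1 ((P.X.j (P.out u)).symm u.2) h4 (by
    rw [← h3, OrderIso.apply_symm_apply]; exact h2)
  exact ⟨this.1, by simp [nxt, inn], this.2⟩

theorem out_inj {u v : (S × Bool) × ℝ} (hu : P.Good u) (hv : P.Good v) (e : P.out u = P.out v)
    (e' : u.2 = v.2) : u = v := by
  have c : P.X.cell u.1 = P.X.cell v.1 := by
    rw [← (P.out_spec hu).1, e, (P.out_spec hv).1]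
  refine Prod.ext ((P.isMatch hu.2).inj _ (P.mem_al.2 ⟨rfl, hu.1.2⟩) _
    (P.mem_al.2 ⟨c.symm, e' ▸ hv.1.2⟩) hu.1.1 hv.1.1 ?_) e'
  have := e
  unfold out at this
  rwa [← c, ← e'] at this

theorem nxt_inj {u v : (S × Bool) × ℝ} (hu : P.Good u) (hv : P.Good v) (e : P.nxt u = P.nxt v) :
    u = v := by
  have e1 : (P.out u).1 = (P.out v).1 := congrArg (fun w => w.1.1) e
  have e2 : P.out u = P.out v := by rw [(P.out_spec hu).2.2.1, (P.out_spec hv).2.2.1, e1]
  have e3 := congrArg Prod.snd e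
  simp only [nxt, e2] at e3
  exact P.out_inj hu hv e2 ((P.X.j _).symm.injective ((P.X.j _).injective e3))

theorem back {u v : (S × Bool) × ℝ} (su : P.src u.1.1 = true) (sv : P.src v.1.1 = true) :
    ∀ n n' : ℕ, (∀ k < n, P.Good (P.nxt^[k] u)) → (∀ k < n', P.Good (P.nxt^[k] v)) →
      P.nxt^[n] u = P.nxt^[n'] v → n = n' ∧ u = v
  | 0, 0, _, _, e => ⟨rfl, e⟩
  | 0, n' + 1, _, hv, e => by
    rw [Function.iterate_succ_apply', Function.iterate_zero_apply] at e
    have := (P.out_spec (hv n' (Nat.lt_succ_self _))).2.2.2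
    rw [e] at su
    exact absurd (su.symm.trans this) (by simp)
  | n + 1, 0, hu, _, e => by
    rw [Function.iterate_succ_apply', Function.iterate_zero_apply] at e
    have := (P.out_spec (hu n (Nat.lt_succ_self _))).2.2.2
    rw [← e] at sv
    exact absurd (sv.symm.trans this) (by simp)
  | n + 1, n' + 1, hu, hv, e => by
    rw [Function.iterate_succ_apply', Function.iterate_succ_apply'] at e
    obtain ⟨h1, h2⟩ := back su sv n n' (fun k hk => hu k (hk.trans (Nat.lt_succ_self _)))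
      (fun k hk => hv k (hk.trans (Nat.lt_succ_self _)))
      (P.nxt_inj (hu n (Nat.lt_succ_self _)) (hv n' (Nat.lt_succ_self _)) e)
    exact ⟨by rw [h1], h2⟩

theorem good_upto {u : (S × Bool) × ℝ} (hu : P.Act u) : ∀ n : ℕ,
    (∀ k < n, (P.nxt^[k] u).2 ∉ P.D (P.X.cell (P.nxt^[k] u).1)) → P.Act (P.nxt^[n] u)
  | 0, _ => hu
  | n + 1, h => by
    rw [Function.iterate_succ_apply']
    exact (P.nxt_spec ⟨good_upto hu n fun k hk => h k (hk.trans (Nat.lt_succ_self _)),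
      h n (Nat.lt_succ_self _)⟩).2

/-- source levels whose orbit meets a discontinuity -/
def Bad (i : S × Bool) : Set ℝ := {t | P.X.j i t ∈ P.act i ∧
  ∃ n, (P.nxt^[n] (i, P.X.j i t)).2 ∈ P.D (P.X.cell (P.nxt^[n] (i, P.X.j i t)).1)}

theorem bad_finite [Finite S] {i : S × Bool} (hi : P.src i.1 = true) : (P.Bad i).Finite := by
  classical
  have key : ∀ t, t ∈ P.Bad i → ∃ n, (∀ k < n, P.Good (P.nxt^[k] (i, P.X.j i t))) ∧
      (P.nxt^[n] (i, P.X.j i t)).2 ∈ P.D (P.X.cell (P.nxt^[n] (i, P.X.j i t)).1) := fun t ht => by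
    refine ⟨Nat.find ht.2, fun k hk => ⟨P.good_upto ⟨by simp [inn, hi], ht.1⟩ k fun k' hk' =>
      Nat.find_min ht.2 (hk'.trans hk), Nat.find_min ht.2 hk⟩, Nat.find_spec ht.2⟩
  choose! N hN using key
  refine Set.Finite.of_finite_image (f := fun t => P.nxt^[N t] (i, P.X.j i t)) ?_ ?_
  · refine (Set.finite_iUnion fun z : S × Bool =>
      (P.D (P.X.cell z)).finite_toSet.image fun d => (z, d)).subset ?_
    rintro _ ⟨t, ht, rfl⟩
    exact mem_iUnion.2 ⟨_, _, (hN t ht).2, rfl⟩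
  · intro t ht t' ht' e
    have := (P.back (u := (i, P.X.j i t)) (v := (i, P.X.j i t')) hi hi _ _ (hN t ht).1
      (hN t' ht').1 e).2
    exact (P.X.j i).injective (congrArg Prod.snd this)

theorem not_bad {Lam : C → Set ℝ} (hD : ∀ c, ∀ d ∈ P.D c, d ∉ Lam c)
    (hcl : ∀ σ t, P.src σ = false → P.X.j (σ, false) t ∈ P.act (σ, false) →
      P.X.j (σ, false) t ∈ Lam (P.X.cell (σ, false)) →
        P.X.j (σ, true) t ∈ Lam (P.X.cell (σ, true)))
    {u : (S × Bool) × ℝ} (hu : P.Act u) (hl : u.2 ∈ Lam (P.X.cell u.1)) : ∀ n : ℕ,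
    P.Act (P.nxt^[n] u) ∧ (P.nxt^[n] u).2 ∈ Lam (P.X.cell (P.nxt^[n] u).1)
  | 0 => ⟨hu, hl⟩
  | n + 1 => by
    obtain ⟨h1, h2⟩ := not_bad hD hcl hu hl n
    have g : P.Good (P.nxt^[n] u) := ⟨h1, fun h => hD _ _ h h2⟩
    rw [Function.iterate_succ_apply']
    obtain ⟨k1, k2, k3, k4⟩ := P.out_spec g
    refine ⟨(P.nxt_spec g).2, hcl _ _ k4 ?_ ?_⟩
    · rw [← k3, OrderIso.apply_symm_apply]; exact k2
    · rw [← k3, OrderIso.apply_symm_apply, k1]; exact h2

/-- all orbits started in `[p, q]` live for ever -/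
def Alive (i : S × Bool) (p q : ℝ) : Prop :=
  ∀ t ∈ Icc p q, ∀ n, P.Good (P.nxt^[n] (i, P.X.j i t))

theorem exists_alive [Finite S] {i : S × Bool} (hi : P.src i.1 = true) {x : ℝ}
    (hx : ∀ n, P.Good (P.nxt^[n] (i, P.X.j i x))) : ∃ η > 0, P.Alive i (x - η) (x + η) := by
  have fin : (P.Bad i ∪ (P.X.j i) ⁻¹' (P.D (P.X.cell i))).Finite :=
    (P.bad_finite hi).union ((P.D _).finite_toSet.preimage (P.X.j i).injective.injOn)
  obtain ⟨η, hη, k⟩ := exists_gap fin (x := x) (by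
    rintro (⟨_, n, h⟩ | h)
    · exact (hx n).2 h
    · exact (hx 0).2 h)
  refine ⟨η, hη, fun t ht n => ?_⟩
  have hxm : x ∈ Icc (x - η) (x + η) := ⟨by linarith, by linarith⟩
  have a : P.X.j i t ∈ P.act i := by
    refine (P.act_iff fun d hd hd' => ?_).1 (hx 0).1.2
    refine k ((P.X.j i).symm d) (ordConnected_Icc.uIcc_subset hxm ht ?_) (Or.inr (by simpa using hd))
    have := (P.X.j i).symm.monotone.mapsTo_uIcc hd'
    simpa using this
  have nb : ∀ m, (P.nxt^[m] (i, P.X.j i t)).2 ∉ P.D (P.X.cell (P.nxt^[m] (i, P.X.j i t)).1) :=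
    fun m h => k t ht (Or.inl ⟨a, m, h⟩)
  exact ⟨P.good_upto ⟨by simp [inn, hi], a⟩ n fun m _ => nb m, nb n⟩

/-- the state of the reference level -/
noncomputable def st (i : S × Bool) (x : ℝ) (n : ℕ) : (S × Bool) × ℝ := P.nxt^[n] (i, P.X.j i x)

/-- transport to the level of the `n`-th cell -/
noncomputable def T (i : S × Bool) (x : ℝ) : ℕ → Au
  | 0 => P.X.j i
  | n + 1 => P.X.j ((P.out (P.st i x n)).1, true) * (P.X.j (P.out (P.st i x n)))⁻¹ * T i x n

theorem itin {i : S × Bool} {p q x : ℝ} (h : P.Alive i p q) (hx : x ∈ Icc p q) : ∀ n : ℕ,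
    ∀ t ∈ Icc p q, P.st i t n = ((P.st i x n).1, P.T i x n t) ∧
      P.out (P.st i t n) = P.out (P.st i x n) := by
  have key : ∀ n, (∀ t ∈ Icc p q, P.st i t n = ((P.st i x n).1, P.T i x n t)) →
      ∀ t ∈ Icc p q, P.out (P.st i t n) = P.out (P.st i x n) := fun n hn t ht => by
    have e : P.al (P.X.cell (P.st i x n).1) (P.T i x n t) =
        P.al (P.X.cell (P.st i x n).1) (P.T i x n x) := by
      refine P.al_eq fun d hd hd' => ?_
      have m : (P.T i x n).symm d ∈ Icc p q := ordConnected_Icc.uIcc_subset ht hx (by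
        simpa using (P.T i x n).symm.monotone.mapsTo_uIcc hd')
      have := (h _ m n).2
      change (P.st i _ n).2 ∉ P.D (P.X.cell (P.st i _ n).1) at this
      rw [hn _ m] at this
      exact this (by simpa using hd)
    have e2 : (P.st i x n).2 = P.T i x n x := congrArg Prod.snd (hn x hx)
    rw [hn t ht]
    unfold out
    simp only [e, e2]
  intro n
  induction n with
  | zero => exact fun t ht => ⟨rfl, key 0 (fun _ _ => rfl) t ht⟩
  | succ n ih =>
    have e : ∀ t ∈ Icc p q, P.st i t (n + 1) = ((P.st i x (n + 1)).1, P.T i x (n + 1) t) :=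
      fun t ht => by
        have e1 : ∀ t, P.st i t (n + 1) = P.nxt (P.st i t n) := fun t =>
          Function.iterate_succ_apply' _ _ _
        rw [e1, e1, nxt, nxt, (ih t ht).2, (ih t ht).1]
        rfl
    exact fun t ht => ⟨e t ht, key _ e t ht⟩

end Dyn

end Pool.Agent.Work.MP_3d425c_gt.Ht
end

-- merged part: Pool.Agent.Work.MP_3d425c_gt.Ht.Hotel
section
/-!
The hotel lemma.
-/

namespace Pool.Agent.Work.MP_3d425c_gt.Ht

open Set Pool.Agent.Work.MP_3d425c_gt.Gn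

theorem prod_restrict {E : Type} (K : Set ℝ) (F : E → Au) (g : E → Equiv.Perm K) :
    ∀ l : List E, (∀ z ∈ l, ∀ s : K, (g z s : ℝ) = F z s) → ∀ s : K,
      ((l.map g).prod s : ℝ) = (l.map F).prod s
  | [], _, _ => rfl
  | a :: l, h, s => by
    rw [List.map_cons, List.map_cons, List.prod_cons, List.prod_cons, Equiv.Perm.mul_apply,
      RelIso.mul_apply, h a List.mem_cons_self,
      prod_restrict K F g l (fun z hz => h z (List.mem_cons_of_mem _ hz))]

theorem prod_fix {E : Type} (F : E → Au) (s : ℝ) : ∀ l : List E, (∀ z ∈ l, F z s = s) →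
    (l.map F).prod s = s
  | [], _ => rfl
  | a :: l, h => by
    rw [List.map_cons, List.prod_cons, RelIso.mul_apply,
      prod_fix F s l (fun z hz => h z (List.mem_cons_of_mem _ hz)), h a List.mem_cons_self]

theorem prod_filter {E Γ : Type} [Monoid Γ] (g : E → Γ) (p : E → Bool) : ∀ l : List E,
    (∀ z ∈ l, p z = false → g z = 1) → (l.map g).prod = ((l.filter p).map g).prod
  | [], _ => rfl
  | a :: l, h => by
    have ih := prod_filter g p l fun z hz => h z (List.mem_cons_of_mem _ hz)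
    cases e : p a
    · rw [List.filter_cons_of_neg (by simp [e]), List.map_cons, List.prod_cons,
        h a List.mem_cons_self e, one_mul, ih]
    · rw [List.filter_cons_of_pos e, List.map_cons, List.map_cons, List.prod_cons, List.prod_cons,
        ih]

namespace Dyn

variable {S C : Type} (P : Dyn S C) (x : S → ℝ) (η : ℝ) (h H : S → Au)

noncomputable def zz (i : S × Bool) (n : ℕ) : S × Bool := (P.st i (x i.1) n).1
noncomputable def oo (i : S × Bool) (n : ℕ) : S × Bool := P.out (P.st i (x i.1) n)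
noncomputable def TT (i : S × Bool) (n : ℕ) : Au := P.T i (x i.1) n
noncomputable def RR (i : S × Bool) (n : ℕ) : Au := (P.X.j (P.oo x i n))⁻¹ * P.TT x i n
noncomputable def ee (i : S × Bool) : ℕ → Bool
  | 0 => P.X.sg i
  | n + 1 => (P.X.sg ((P.oo x i n).1, true) == (P.X.sg (P.oo x i n) == !(ee i n)))
noncomputable def KK (i : S × Bool) (n : ℕ) : Au :=
  P.RR x i n * sp (P.X.sg (P.oo x i n) == !(P.ee x i n)) (h i.1) * (P.RR x i n)⁻¹
noncomputable def gg (i : S × Bool) (n : ℕ) : Au :=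
  P.TT x i n * sp (P.ee x i n) (h i.1) * (P.TT x i n)⁻¹
def II (i : S × Bool) (n : ℕ) : Set ℝ := Ioo (P.TT x i n (x i.1 - η)) (P.TT x i n (x i.1 + η))
def WW (i : S × Bool) (n : ℕ) : Set ℝ := Ioo (P.RR x i n (x i.1 - η)) (P.RR x i n (x i.1 + η))

structure Al : Prop where
  pos : 0 < η
  alive : ∀ i : S × Bool, P.src i.1 = true → P.Alive i (x i.1 - η) (x i.1 + η)

structure Sol : Prop where
  supp : ∀ σ, P.src σ = true → SuppIn (x σ - η) (x σ + η) (h σ)
  hs : ∀ σ, P.src σ = true → H σ = h σ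
  hin : ∀ (i : S × Bool) n, P.src i.1 = true → ∀ u ∈ P.WW x η i n,
    H (P.oo x i n).1 u = P.KK x h i n u
  hout : ∀ σ u, P.src σ = false → (∀ (i : S × Bool) n, P.src i.1 = true → (P.oo x i n).1 = σ →
    u ∉ P.WW x η i n) → H σ u = u

variable {P x η h H}

theorem Al.state (A : P.Al x η) {i : S × Bool} (hi : P.src i.1 = true) (n : ℕ) {t : ℝ}
    (ht : t ∈ Icc (x i.1 - η) (x i.1 + η)) :
    P.st i t n = (P.zz x i n, P.TT x i n t) ∧ P.Good (P.zz x i n, P.TT x i n t) ∧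
      P.out (P.zz x i n, P.TT x i n t) = P.oo x i n := by
  have hx : x i.1 ∈ Icc (x i.1 - η) (x i.1 + η) := ⟨by linarith [A.pos], by linarith [A.pos]⟩
  obtain ⟨h1, h2⟩ := P.itin (A.alive i hi) hx n t ht
  have g : P.Good (P.st i t n) := A.alive i hi t ht n
  rw [h1] at g h2
  exact ⟨h1, g, h2⟩

theorem Al.mem (A : P.Al x η) {i : S × Bool} (hi : P.src i.1 = true) {n : ℕ} {s : ℝ}
    (hs : s ∈ P.II x η i n) : P.Good (P.zz x i n, s) ∧ P.out (P.zz x i n, s) = P.oo x i n := by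
  have := (A.state hi n (Ioo_subset_Icc_self ((mem_Ioo_conj _).1 hs))).2
  rwa [OrderIso.apply_symm_apply] at this

theorem Al.oo_eq (A : P.Al x η) {i : S × Bool} (hi : P.src i.1 = true) (n : ℕ) :
    P.oo x i n = ((P.oo x i n).1, false) ∧ P.src (P.oo x i n).1 = false ∧
      P.X.cell (P.oo x i n) = P.X.cell (P.zz x i n) := by
  have hx : x i.1 ∈ Icc (x i.1 - η) (x i.1 + η) := ⟨by linarith [A.pos], by linarith [A.pos]⟩
  obtain ⟨k1, _, k3, k4⟩ := P.out_spec (A.alive i hi _ hx n)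
  exact ⟨k3, k4, k1⟩

theorem zz_succ (i : S × Bool) (n : ℕ) : P.zz x i (n + 1) = ((P.oo x i n).1, true) := by
  unfold zz oo st
  rw [Function.iterate_succ_apply']
  rfl

theorem TT_succ (i : S × Bool) (n : ℕ) :
    P.TT x i (n + 1) = P.X.j ((P.oo x i n).1, true) * P.RR x i n := mul_assoc _ _ _

theorem TT_eq (i : S × Bool) (n : ℕ) : P.TT x i n = P.X.j (P.oo x i n) * P.RR x i n := by
  simp [RR]

theorem Al.disj (A : P.Al x η) {i i' : S × Bool} (hi : P.src i.1 = true) (hi' : P.src i'.1 = true)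
    {n n' : ℕ} (e : (P.oo x i n).1 = (P.oo x i' n').1) {u : ℝ} (hu : u ∈ P.WW x η i n)
    (hu' : u ∈ P.WW x η i' n') : (i, n) = (i', n') := by
  have t1 := Ioo_subset_Icc_self ((mem_Ioo_conj _).1 hu)
  have t2 := Ioo_subset_Icc_self ((mem_Ioo_conj _).1 hu')
  have e1 := (A.state hi (n + 1) t1).1
  have e2 := (A.state hi' (n' + 1) t2).1
  rw [zz_succ, TT_succ, RelIso.mul_apply, OrderIso.apply_symm_apply] at e1 e2
  rw [e, ← e2] at e1
  obtain ⟨k1, k2⟩ := P.back (u := (i, _)) (v := (i', _)) hi hi' _ _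
    (fun k _ => A.alive i hi _ t1 k) (fun k _ => A.alive i' hi' _ t2 k) e1
  rw [Nat.succ_injective k1, (Prod.mk.inj k2).1]

theorem Al.bound (A : P.Al x η) {i : S × Bool} (hi : P.src i.1 = true) (n : ℕ) {t : ℝ}
    (ht : t ∈ Icc (x i.1 - η) (x i.1 + η)) : P.RR x i n t ∈ Ioo (0 : ℝ) 1 := by
  obtain ⟨_, g, e⟩ := A.state hi n ht
  have := (P.nxt_spec g).1
  rwa [e] at this

theorem gg_supp (B : P.Sol x η h H) {i : S × Bool} (hi : P.src i.1 = true) (n : ℕ) :
    SuppIn (P.TT x i n (x i.1 - η)) (P.TT x i n (x i.1 + η)) (P.gg x h i n) :=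
  conj_supp (sp_supp (B.supp _ hi) _) _

theorem fac_agree (B : P.Sol x η h H) {i : S × Bool} (hi : P.src i.1 = true) (n : ℕ) (b : Bool)
    {s : ℝ} (hs : s ∈ Ioo ((P.X.j ((P.oo x i n).1, b) * P.RR x i n) (x i.1 - η))
      ((P.X.j ((P.oo x i n).1, b) * P.RR x i n) (x i.1 + η))) :
    fac P.X.j P.X.sg H ((P.oo x i n).1, b) s =
      ((P.X.j ((P.oo x i n).1, b) * P.RR x i n) * sp (P.X.sg ((P.oo x i n).1, b) ==
        (P.X.sg (P.oo x i n) == !(P.ee x i n))) (h i.1) *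
        (P.X.j ((P.oo x i n).1, b) * P.RR x i n)⁻¹) s := by
  rw [← sp_sp, ← sp_conj]
  refine sp_agree (conj_supp (sp_supp (B.supp _ hi) _) _) (fun s hs => ?_) _ s hs
  rw [conj_apply, B.hin i n hi _ ((mem_Ioo_conj _).1 hs)]
  rfl

theorem fin1 (B : P.Sol x η h H) {i : S × Bool} (hi : P.src i.1 = true) : ∀ (n : ℕ) {s : ℝ},
    s ∈ P.II x η i n → fac P.X.j P.X.sg H (P.zz x i n) s = P.gg x h i n s
  | 0, s, _ => by
    change sp (P.X.sg i) (P.X.j i * H i.1 * (P.X.j i)⁻¹) s = _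
    rw [B.hs _ hi, sp_conj]
    rfl
  | n + 1, s, hs => by
    rw [zz_succ, gg, TT_succ]
    exact fac_agree B hi n true (by rwa [II, TT_succ] at hs)

theorem fout1 (A : P.Al x η) (B : P.Sol x η h H) {i : S × Bool} (hi : P.src i.1 = true) (n : ℕ)
    {s : ℝ} (hs : s ∈ P.II x η i n) :
    fac P.X.j P.X.sg H (P.oo x i n) s = (P.gg x h i n)⁻¹ s := by
  have e := (A.oo_eq hi n).1
  have := fac_agree B hi n false (s := s) (by rwa [II, TT_eq, e] at hs)
  rw [← e, ← TT_eq] at this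
  have e2 : ∀ a b : Bool, (a == (a == !b)) = !b := by decide
  rw [this, e2, sp_not, gg]
  simp [mul_assoc]

theorem fac_fix (B : P.Sol x η h H) {σ : S} (hσ : P.src σ = false) (b : Bool) {s : ℝ}
    (k : ∀ (i : S × Bool) n, P.src i.1 = true → (P.oo x i n).1 = σ →
      (P.X.j (σ, b)).symm s ∉ P.WW x η i n) : fac P.X.j P.X.sg H (σ, b) s = s :=
  sp_fix (by rw [conj_apply, B.hout σ _ hσ k, OrderIso.apply_symm_apply])

theorem fin2 (B : P.Sol x η h H) {z : S × Bool} (hz : inn P.src z = true) {s : ℝ}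
    (k : ∀ (i : S × Bool) n, P.src i.1 = true → P.zz x i n = z → s ∉ P.II x η i n) :
    fac P.X.j P.X.sg H z s = s := by
  cases e : P.src z.1
  · obtain ⟨σ, b⟩ := z
    have hb : b = true := by simpa [inn, show P.src σ = false from e] using hz
    subst hb
    refine fac_fix B e true fun i n hi e' hm => k i (n + 1) hi (by rw [zz_succ, e']) ?_
    rw [II, TT_succ, e']
    exact (mem_Ioo_conj (P.X.j (σ, true))).2 hm
  · refine sp_fix ?_
    rw [B.hs _ e]
    exact conj_supp (B.supp _ e) _ s (k z 0 e rfl)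

theorem fout2 (A : P.Al x η) (B : P.Sol x η h H) {y : S × Bool} (hy : inn P.src y = false) {s : ℝ}
    (k : ∀ (i : S × Bool) n, P.src i.1 = true → P.oo x i n = y → s ∉ P.II x η i n) :
    fac P.X.j P.X.sg H y s = s := by
  obtain ⟨σ, b⟩ := y
  rw [inn, Bool.or_eq_false_iff] at hy
  obtain ⟨hb, e⟩ := hy
  change b = false at hb
  subst hb
  refine fac_fix B e false fun i n hi e' hm => ?_
  have e2 : P.oo x i n = (σ, false) := by rw [(A.oo_eq hi n).1, e']
  refine k i n hi e2 ?_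
  rw [II, TT_eq, e2]
  exact (mem_Ioo_conj (P.X.j (σ, false))).2 hm

/-- a moved point lies, with its image, in a piece -/
theorem moved (A : P.Al x η) (B : P.Sol x η h H) {z : S × Bool} {s : ℝ}
    (hm : fac P.X.j P.X.sg H z s ≠ s) : s ∈ P.act z ∧
      ∀ d ∈ P.D (P.X.cell z), d ∉ uIcc s (fac P.X.j P.X.sg H z s) := by
  have key : ∀ (i : S × Bool) n, P.src i.1 = true → s ∈ P.II x η i n → ∀ s' ∈ P.II x η i n,
      ∀ d ∈ P.D (P.X.cell (P.zz x i n)), d ∉ uIcc s s' := fun i n hi hs s' hs' d hd hd' =>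
    (A.mem hi (ordConnected_Ioo.uIcc_subset hs hs' hd')).1.2 hd
  cases e : inn P.src z
  · have := mt (fout2 A B e) hm
    push Not at this
    obtain ⟨i, n, hi, rfl, hs⟩ := this
    obtain ⟨g, o⟩ := A.mem hi hs
    refine ⟨o ▸ (P.out_spec g).2.1, ?_⟩
    rw [fout1 A B hi n hs, (A.oo_eq hi n).2.2]
    exact key i n hi hs _ ((gg_supp B hi n).symm.mem hs)
  · have := mt (fin2 B e) hm
    push Not at this
    obtain ⟨i, n, hi, rfl, hs⟩ := this
    refine ⟨(A.mem hi hs).1.1.2, ?_⟩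
    rw [fin1 B hi n hs]
    exact key i n hi hs _ ((gg_supp B hi n).mem hs)

theorem flat (A : P.Al x η) (B : P.Sol x η h H) : P.X.Flat H := by
  classical
  intro c
  refine RelIso.ext fun s₀ => ?_
  rw [RelIso.one_apply]
  set F := fac P.X.j P.X.sg H with hF
  by_cases hD : s₀ ∈ P.D c
  · refine prod_fix F s₀ _ fun z hz => by_contra fun hm => ?_
    exact (moved A B hm).2 s₀ (by rwa [(P.X.mem c z).1 hz]) left_mem_uIcc
  let K : Set ℝ := {s | ∀ d ∈ P.D c, d ∉ uIcc s₀ s}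
  have hK0 : s₀ ∈ K := fun d hd hd' => hD (by
    rw [uIcc_self, mem_singleton_iff] at hd'; exact hd' ▸ hd)
  have pres : ∀ z, P.X.cell z = c → ∀ s, F z s ∈ K ↔ s ∈ K := fun z hz s => by
    by_cases hm : F z s = s
    · rw [hm]
    · have k := (moved A B hm).2
      rw [hz] at k
      refine ⟨fun a d hd hd' => ?_, fun a d hd hd' => ?_⟩
      · rcases uIcc_subset_uIcc_union_uIcc (b := F z s) hd' with k' | k'
        · exact a d hd k'
        · exact k d hd (by rwa [uIcc_comm] at k')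
      · rcases uIcc_subset_uIcc_union_uIcc (b := s) hd' with k' | k'
        · exact a d hd k'
        · exact k d hd k'
  let g : S × Bool → Equiv.Perm K := fun z =>
    if hz : P.X.cell z = c then Equiv.Perm.subtypePerm (F z).toEquiv (pres z hz) else 1
  have hg : ∀ z, P.X.cell z = c → ∀ s : K, (g z s : ℝ) = F z s := fun z hz s => by
    simp only [g, dif_pos hz]
    rfl
  have alK : ∀ s : K, P.al c s = P.al c s₀ := fun s => (P.al_eq s.2).symm
  have piece : ∀ (i : S × Bool) n, P.src i.1 = true → ∀ s : K, (s : ℝ) ∈ P.II x η i n →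
      P.X.cell (P.zz x i n) = c → P.zz x i n ∈ P.al c s₀ ∧ inn P.src (P.zz x i n) = true ∧
        P.M (P.al c s₀) (P.zz x i n) = P.oo x i n := fun i n hi s hs hc => by
    obtain ⟨k, o⟩ := A.mem hi hs
    refine ⟨alK s ▸ P.mem_al.2 ⟨hc, k.1.2⟩, k.1.1, ?_⟩
    rw [← o, ← alK s, ← hc]
    rfl
  have M := P.isMatch hD
  have e1 : ((P.al c s₀).map g).prod = 1 := by
    refine M.prod _ g (fun z hz hi => ?_) (fun y hy hi hn => ?_)
    · obtain ⟨hy, hy'⟩ := M.mem z hz hi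
      have cz := (P.mem_al.1 hz).1
      have cy := (P.mem_al.1 hy).1
      refine eq_inv_of_mul_eq_one_left (Equiv.ext fun s => Subtype.ext ?_)
      rw [Equiv.Perm.mul_apply, hg _ cy, hg _ cz, Equiv.Perm.one_apply]
      by_cases ex : ∃ (i : S × Bool) (n : ℕ), P.src i.1 = true ∧ P.zz x i n = z ∧
          (s : ℝ) ∈ P.II x η i n
      · obtain ⟨i, n, hi', rfl, hs⟩ := ex
        rw [(piece i n hi' s hs cz).2.2, hF, fin1 B hi' n hs,
          fout1 A B hi' n ((gg_supp B hi' n).mem hs), RelIso.inv_apply_self]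
      · push Not at ex
        rw [hF, fin2 B hi ex]
        refine fout2 A B hy' fun i n hi' e hs => ?_
        obtain ⟨k1, k2, k3⟩ := piece i n hi' s hs (by rw [← (A.oo_eq hi' n).2.2, e, cy])
        exact ex i n hi' (M.inj _ k1 _ hz k2 hi (k3.trans e)) hs
    · have cy := (P.mem_al.1 hy).1
      refine Equiv.ext fun s => Subtype.ext ?_
      rw [hg _ cy, Equiv.Perm.one_apply]
      refine fout2 A B hi fun i n hi' e hs => ?_
      obtain ⟨k1, k2, k3⟩ := piece i n hi' s hs (by rw [← (A.oo_eq hi' n).2.2, e, cy])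
      exact hn _ k1 k2 (k3.trans e)
  have e2 : ((P.X.L c).map g).prod = 1 := by
    rw [← e1]
    refine prod_filter g _ _ fun z hz hp => Equiv.ext fun s => Subtype.ext ?_
    have cz := (P.X.mem c z).1 hz
    rw [hg _ cz, Equiv.Perm.one_apply]
    by_contra hm
    have := (P.act_iff (z := z) (s := s₀) (s' := s) (cz ▸ s.2)).2 (moved A B hm).1
    simp [this] at hp
  have := prod_restrict K F g (P.X.L c) (fun z hz => hg z ((P.X.mem c z).1 hz)) ⟨s₀, hK0⟩
  rw [e2] at this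
  exact this.symm

theorem exists_sol (A : P.Al x η) (hs : ∀ σ, P.src σ = true → SuppIn (x σ - η) (x σ + η) (h σ)) :
    ∃ H, P.Sol x η h H := by
  have : ∀ σ, ∃ G : Au, (∀ (i : S × Bool) n, P.src i.1 = true → (P.oo x i n).1 = σ →
      ∀ u ∈ P.WW x η i n, G u = P.KK x h i n u) ∧ ∀ u, (∀ (i : S × Bool) n, P.src i.1 = true →
        (P.oo x i n).1 = σ → u ∉ P.WW x η i n) → G u = u := fun σ => by
    obtain ⟨G, h1, h2⟩ := glue
      (ι := {k : (S × Bool) × ℕ // P.src k.1.1 = true ∧ (P.oo x k.1 k.2).1 = σ})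
      (fun k => P.RR x k.1.1 k.1.2 (x k.1.1.1 - η)) (fun k => P.RR x k.1.1 k.1.2 (x k.1.1.1 + η))
      (fun k => P.KK x h k.1.1 k.1.2) (fun k => conj_supp (sp_supp (hs _ k.2.1) _) _)
      (fun k k' hk => disjoint_left.2 fun u hu hu' => hk (Subtype.ext
        (A.disj k.2.1 k'.2.1 (k.2.2.trans k'.2.2.symm) hu hu')))
    exact ⟨G, fun i n hi e u hu => h1 ⟨(i, n), hi, e⟩ u hu,
      fun u hu => h2 u fun k => hu _ _ k.2.1 k.2.2⟩
  choose G h1 h2 using this
  refine ⟨fun σ => if P.src σ = true then h σ else G σ, hs, fun σ e => if_pos e,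
    fun i n hi u hu => ?_, fun σ u e k => ?_⟩
  · rw [if_neg (by simp [(A.oo_eq hi n).2.1])]
    exact h1 _ i n hi rfl u hu
  · rw [if_neg (by simp [e])]
    exact h2 σ u k

theorem exists_delta [Finite S] (A : P.Al x η) {ε : ℝ} (hε : 0 < ε) : ∃ δ > 0, ∀ h : S → Au,
    (∀ σ, P.src σ = true → SuppIn (x σ - η) (x σ + η) (h σ) ∧ ∀ t, |h σ t - t| ≤ δ) →
    ∀ (i : S × Bool) n, P.src i.1 = true → ∀ u, |P.KK x h i n u - u| ≤ ε := by
  have fin : {k : (S × Bool) × ℕ | P.src k.1.1 = true ∧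
      ε < P.RR x k.1 k.2 (x k.1.1 + η) - P.RR x k.1 k.2 (x k.1.1 - η)}.Finite := by
    refine (Set.finite_iUnion fun σ : S => finite_long (A := 0) (B := 1)
      (fun k : (S × Bool) × ℕ => P.RR x k.1 k.2 (x k.1.1 - η))
      (fun k => P.RR x k.1 k.2 (x k.1.1 + η))
      {k | P.src k.1.1 = true ∧ (P.oo x k.1 k.2).1 = σ} (fun k hk => ?_)
      (fun k hk k' hk' ne => disjoint_left.2 fun u hu hu' =>
        ne (A.disj hk.1 hk'.1 (hk.2.trans hk'.2.symm) hu hu')) hε).subset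
      fun k hk => mem_iUnion.2 ⟨_, ⟨hk.1, rfl⟩, hk.2⟩
    exact ⟨(A.bound hk.1 _ ⟨le_rfl, by linarith [A.pos]⟩).1.le,
      (A.bound hk.1 _ ⟨by linarith [A.pos], le_rfl⟩).2.le⟩
  obtain ⟨δ, hδ, k⟩ := exists_pos_forall fin (fun k δ => ∀ g : Au,
      SuppIn (x k.1.1 - η) (x k.1.1 + η) g → (∀ t, |g t - t| ≤ δ) →
      ∀ u, |(P.RR x k.1 k.2 * g * (P.RR x k.1 k.2)⁻¹) u - u| ≤ ε)
    (fun _ _ _ _ le a g h1 h2 => a g h1 fun t => (h2 t).trans le)
    (fun k _ => conj_small _ _ _ hε)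
  refine ⟨δ, hδ, fun h hh i n hi u => ?_⟩
  by_cases e : ε < P.RR x i n (x i.1 + η) - P.RR x i n (x i.1 - η)
  · exact k (i, n) ⟨hi, e⟩ _ (sp_supp (hh _ hi).1 _) (sp_small (hh _ hi).2 _) u
  · exact (conj_supp (sp_supp (hh _ hi).1 _) _).small hε.le (not_lt.1 e) u

end Dyn

theorem hotel : S_hotel := by
  intro S C _ X src act D hot Lam hD hcl x hx
  obtain ⟨M, hM⟩ := exists_matcher (inn src)
  let P : Dyn S C := ⟨X, src, act, D, M, hot, hM⟩
  obtain ⟨η, hη, al⟩ := exists_pos_forall (Set.toFinite {i : S × Bool | src i.1 = true})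
    (fun i η => P.Alive i (x i.1 - η) (x i.1 + η))
    (fun i η η' _ le a t ht => a t ⟨by linarith [ht.1], by linarith [ht.2]⟩)
    (fun i hi => P.exists_alive hi fun n => by
      have := P.not_bad (u := (i, X.j i (x i.1))) hD hcl
        ⟨by simp [inn, P, show src i.1 = true from hi], (hx i.1 i.2 hi).1⟩ (hx i.1 i.2 hi).2 n
      exact ⟨this.1, fun k => hD _ _ k this.2⟩)
  have A : P.Al x η := ⟨hη, al⟩
  refine ⟨η, hη, fun ε hε => ?_⟩
  obtain ⟨δ, hδ, k⟩ := Dyn.exists_delta A hε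
  refine ⟨min δ ε, lt_min hδ hε, fun h hh => ?_⟩
  obtain ⟨H, B⟩ := Dyn.exists_sol A fun σ e => (hh σ e).1
  refine ⟨H, B.hs, fun σ t e hn => B.hout σ t e fun i n hi e' hu => hn ?_, fun σ t => ?_,
    Dyn.flat A B⟩
  · have e2 : P.oo x i n = (σ, false) := by rw [(A.oo_eq hi n).1, e']
    have hs : X.j (σ, false) t ∈ P.II x η i n := by
      rw [Dyn.II, Dyn.TT_eq, e2]
      exact ⟨(X.j _).strictMono hu.1, (X.j _).strictMono hu.2⟩
    obtain ⟨g, o⟩ := A.mem hi hs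
    have := (P.out_spec g).2.1
    rwa [o, e2] at this
  · cases e : src σ
    · by_cases ex : ∃ (i : S × Bool) (n : ℕ), src i.1 = true ∧ (P.oo x i n).1 = σ ∧
          t ∈ P.WW x η i n
      · obtain ⟨i, n, hi, rfl, hu⟩ := ex
        rw [B.hin i n hi t hu]
        exact k h (fun σ e => ⟨(hh σ e).1, fun t => ((hh σ e).2 t).trans (min_le_left _ _)⟩)
          i n hi t
      · push Not at ex
        rw [B.hout σ t e ex, sub_self, abs_zero]
        exact hε.le
    · rw [B.hs σ e]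
      exact ((hh σ e).2 t).trans (min_le_right _ _)

end Pool.Agent.Work.MP_3d425c_gt.Ht
end

-- merged part: Pool.Agent.Work.MP_3d425c_gt.Ht.Refine
section
/-!
Refining arcs into slots; thin paths.
-/

namespace Pool.Agent.Work.MP_3d425c_gt.Ht

open Set Pool.Agent.Work.MP_3d425c_gt.Gn

section Refine

variable {W C S : Type} (X : Cx W C) (face : S → W) (dir : S → Bool) (sl : W → List S)

/-- the incidence carrying a slot end -/
def inc (z : S × Bool) : W × Bool := (face z.1, cond z.2 (!dir z.1) (dir z.1))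

def ends (i : W × Bool) : List (S × Bool) :=
  if X.sg i = true then (sl i.1).map fun σ => (σ, dir σ != i.2)
  else ((sl i.1).map fun σ => (σ, dir σ != i.2)).reverse

variable {X face dir sl}

theorem mem_ends (hm : ∀ w σ, σ ∈ sl w ↔ face σ = w) (i : W × Bool) (z : S × Bool) :
    z ∈ ends X dir sl i ↔ inc face dir z = i := by
  have : z ∈ (sl i.1).map (fun σ => (σ, dir σ != i.2)) ↔ inc face dir z = i := by
    obtain ⟨σ, e⟩ := z
    obtain ⟨w, b⟩ := i
    simp only [List.mem_map, hm, Prod.mk.injEq, inc]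
    constructor
    · rintro ⟨_, h1, rfl, rfl⟩
      exact ⟨h1, by cases dir _ <;> cases b <;> rfl⟩
    · rintro ⟨h1, h2⟩
      exact ⟨σ, h1, rfl, by revert h2; cases dir σ <;> cases b <;> cases e <;> simp⟩
  unfold ends
  split_ifs
  · exact this
  · rw [List.mem_reverse]; exact this

/-- the refined complex -/
def Cx.refine (X : Cx W C) (face : S → W) (dir : S → Bool) (sl : W → List S)
    (nd : ∀ w, (sl w).Nodup) (hm : ∀ w σ, σ ∈ sl w ↔ face σ = w) : Cx S C where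
  cell z := X.cell (inc face dir z)
  j z := X.j (inc face dir z)
  sg z := X.sg (inc face dir z)
  L c := (X.L c).flatMap (ends X dir sl)
  nodup c := by
    refine List.nodup_flatMap.2 ⟨fun i _ => ?_, (X.nodup c).imp fun {i i'} ne => ?_⟩
    · have : ((sl i.1).map fun σ => (σ, dir σ != i.2)).Nodup :=
        (nd _).map fun a b e => congrArg Prod.fst e
      unfold ends
      split_ifs
      · exact this
      · exact List.nodup_reverse.2 this
    · exact fun z h1 h2 => ne (((mem_ends hm i z).1 h1).symm.trans ((mem_ends hm i' z).1 h2))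
  mem c z := by
    simp only [List.mem_flatMap, mem_ends hm, X.mem]
    exact ⟨fun ⟨i, h1, h2⟩ => h2 ▸ h1, fun h => ⟨_, h, rfl⟩⟩

theorem conj_prod (T : Au) (H : S → Au) : ∀ l : List S,
    T * (l.map H).prod * T⁻¹ = (l.map fun σ => T * H σ * T⁻¹).prod
  | [] => by simp
  | a :: l => by
    rw [List.map_cons, List.map_cons, List.prod_cons, List.prod_cons, ← conj_prod T H l]
    group

theorem prod_flatMap {E E' Γ : Type} [Monoid Γ] (f : E → List E') (g : E' → Γ) : ∀ l : List E,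
    ((l.flatMap f).map g).prod = (l.map fun i => ((f i).map g).prod).prod
  | [] => rfl
  | a :: l => by
    rw [List.flatMap_cons, List.map_append, List.prod_append, prod_flatMap f g l, List.map_cons,
      List.prod_cons]

theorem refine_flat {nd : ∀ w, (sl w).Nodup} {hm : ∀ w σ, σ ∈ sl w ↔ face σ = w} {H : S → Au}
    (h : (X.refine face dir sl nd hm).Flat H) : X.Flat fun w => ((sl w).map H).prod := by
  intro c
  rw [← h c]
  change _ = (((X.L c).flatMap (ends X dir sl)).map _).prod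
  rw [prod_flatMap]
  congr 1
  refine List.map_congr_left fun i _ => ?_
  have e : ∀ z ∈ ends X dir sl i, fac (X.refine face dir sl nd hm).j
      (X.refine face dir sl nd hm).sg H z = sp (X.sg i) (X.j i * H z.1 * (X.j i)⁻¹) :=
    fun z hz => by rw [← (mem_ends hm i z).1 hz]; rfl
  rw [List.map_congr_left e, fac, conj_prod]
  unfold ends sp
  split_ifs
  · rw [List.map_map]; rfl
  · rw [List.prod_inv_reverse, List.map_reverse, List.map_map, List.map_map]; rfl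

end Refine

theorem prod_small {S : Type} (H : S → Au) {ε : ℝ} (h : ∀ σ t, |H σ t - t| ≤ ε) :
    ∀ (l : List S) (t : ℝ), |(l.map H).prod t - t| ≤ l.length * ε
  | [], t => by simp
  | a :: l, t => by
    rw [List.map_cons, List.prod_cons, RelIso.mul_apply, List.length_cons]
    have h1 := prod_small H h l t
    have h2 := h a ((l.map H).prod t)
    push_cast
    rw [abs_le] at *
    constructor <;> linarith [h1.1, h1.2, h2.1, h2.2]

theorem prod_single {S : Type} (H : S → Au) (I : Set ℝ) (a : S) (ha : ∀ t ∈ I, H a t ∈ I) :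
    ∀ l : List S, l.Nodup → a ∈ l → (∀ σ ∈ l, σ ≠ a → ∀ t ∈ I, H σ t = t) →
      ∀ t ∈ I, (l.map H).prod t = H a t
  | [], _, h, _, _, _ => absurd h List.not_mem_nil
  | b :: l, nd, h, k, t, ht => by
    rw [List.nodup_cons] at nd
    rw [List.map_cons, List.prod_cons, RelIso.mul_apply]
    by_cases e : b = a
    · rw [prod_fix H t l fun z hz => k z (List.mem_cons_of_mem _ hz)
        (fun e' => nd.1 (by rw [e, ← e']; exact hz)) t ht, e]
    · rw [prod_single H I a ha l nd.2 ((List.mem_cons.1 h).resolve_left (Ne.symm e))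
        (fun σ hσ => k σ (List.mem_cons_of_mem _ hσ)) t ht]
      exact k b List.mem_cons_self e _ (ha t ht)

theorem cnt_le {E : Type} [Finite E] {In Out A I B I' : Set E} (h1 : In ⊆ A ∪ I) (h2 : B ⊆ Out)
    (h3 : I' ⊆ Out) (h4 : Disjoint B I') (h5 : A.ncard ≤ B.ncard) (h6 : I.ncard ≤ I'.ncard) :
    In.ncard ≤ Out.ncard := by
  have a := (ncard_le_ncard h1).trans (ncard_union_le A I)
  have b := ncard_le_ncard (union_subset h2 h3)
  rw [ncard_union_eq h4] at b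
  omega

theorem icc_loc {a b s s' : ℝ} (h : s ≤ s') (ha : a ∉ Icc s s') (hb : b ∉ Icc s s') :
    s ∈ Icc a b ↔ s' ∈ Icc a b := by
  simp only [mem_Icc, not_and_or, not_le] at *
  constructor
  · rintro ⟨h1, h2⟩
    exact ⟨h1.trans h, by rcases hb with k | k <;> linarith⟩
  · rintro ⟨h1, h2⟩
    exact ⟨by rcases ha with k | k <;> linarith, h.trans h2⟩

theorem exists_inj {ι α : Type} [Finite ι] (A : ι → Set α) (hA : ∀ i, (A i).Infinite) :
    ∃ b : ι → α, Function.Injective b ∧ ∀ i, b i ∈ A i := by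
  classical
  have key : ∀ T : Finset ι, ∃ b : ι → α, InjOn b T ∧ ∀ i, b i ∈ A i := fun T => by
    induction T using Finset.induction_on with
    | empty => exact ⟨fun i => (hA i).nonempty.some, by simp, fun i => (hA i).nonempty.some_mem⟩
    | insert a T ha ih =>
      obtain ⟨b, h1, h2⟩ := ih
      obtain ⟨v, hv, hv'⟩ := (hA a).exists_notMem_finite (T.finite_toSet.image b)
      have e : ∀ i ∈ T, Function.update b a v i = b i := fun i hi =>
        Function.update_of_ne (fun e : i = a => ha (e ▸ hi)) _ _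
      refine ⟨Function.update b a v, fun i hi i' hi' k => ?_, fun i => ?_⟩
      · rw [Finset.coe_insert] at hi hi'
        rcases hi with rfl | hi <;> rcases hi' with rfl | hi'
        · rfl
        · rw [Function.update_self, e _ hi'] at k
          exact absurd ⟨_, hi', k.symm⟩ hv'
        · rw [Function.update_self, e _ hi] at k
          exact absurd ⟨_, hi, k⟩ hv'
        · rw [e _ hi, e _ hi'] at k
          exact h1 hi hi' k
      · by_cases k : i = a
        · rw [k, Function.update_self]; exact hv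
        · rw [Function.update_of_ne k]; exact h2 i
  have := Fintype.ofFinite ι
  obtain ⟨b, h1, h2⟩ := key Finset.univ
  exact ⟨b, fun i i' e => h1 (by simp) (by simp) e, h2⟩

theorem exists_path {W C : Type} (X : Cx W C) (Z : Set (W × ℝ)) {u v : C × ℝ}
    (h : Relation.ReflTransGen (X.Adj Z) u v) : ∃ (n : ℕ) (c : ℕ → C) (G : ℕ → Au),
      c 0 = u.1 ∧ G 0 = 1 ∧ (c n, G n u.2) = v ∧ ∀ k < n, ∃ i : W × Bool,
        (X.j i).symm (G k u.2) ∈ Ioo (0 : ℝ) 1 ∧ (i.1, (X.j i).symm (G k u.2)) ∉ Z ∧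
        X.cell i = c k ∧ X.cell (i.1, !i.2) = c (k + 1) ∧
        G (k + 1) = X.j (i.1, !i.2) * (X.j i)⁻¹ * G k := by
  induction h with
  | refl => exact ⟨0, fun _ => u.1, fun _ => 1, rfl, rfl, rfl, fun _ h => absurd h (by simp)⟩
  | tail _ h ih =>
    obtain ⟨n, c, G, h1, h2, h3, h4⟩ := ih
    obtain ⟨w, t, b, k1, k2, rfl, rfl⟩ := h
    obtain ⟨e1, e2⟩ := Prod.mk.inj h3
    have e3 : (X.j (w, b)).symm (G n u.2) = t := by rw [e2, OrderIso.symm_apply_apply]
    refine ⟨n + 1, Function.update c (n + 1) (X.cell (w, !b)),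
      Function.update G (n + 1) (X.j (w, !b) * (X.j (w, b))⁻¹ * G n), ?_, ?_, ?_, fun k hk => ?_⟩
    · rw [Function.update_of_ne (by omega), h1]
    · rw [Function.update_of_ne (by omega), h2]
    · rw [Function.update_self, Function.update_self, ← e3]; rfl
    · rw [Function.update_of_ne (show k ≠ n + 1 by omega),
        Function.update_of_ne (show k ≠ n + 1 by omega)]
      rcases Nat.lt_succ_iff_lt_or_eq.1 hk with hk | rfl
      · rw [Function.update_of_ne (show k + 1 ≠ n + 1 by omega),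
          Function.update_of_ne (show k + 1 ≠ n + 1 by omega)]
        exact h4 k hk
      · rw [Function.update_self, Function.update_self]
        exact ⟨(w, b), e3 ▸ k1, e3 ▸ k2, e1.symm, rfl, rfl⟩

theorem exists_rad (A : Au) (a : ℝ) {U : Set ℝ} (hU : IsOpen U) (h : A a ∈ U) :
    ∃ r > 0, ∀ s ∈ Icc (a - r) (a + r), A s ∈ U := by
  obtain ⟨r, hr, k⟩ := Metric.isOpen_iff.1 (hU.preimage A.continuous) a h
  refine ⟨r / 2, by positivity, fun s hs => k ?_⟩
  rw [Metric.mem_ball, Real.dist_eq, abs_lt]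
  constructor <;> linarith [hs.1, hs.2]

theorem exists_sep (A B : Au) {a b : ℝ} (h : A a ≠ B b) :
    ∃ r > 0, ∀ s ∈ Icc (a - r) (a + r), ∀ s' ∈ Icc (b - r) (b + r), A s ≠ B s' := by
  obtain ⟨U, V, hU, hV, h1, h2, h3⟩ := t2_separation h
  obtain ⟨r, hr, k⟩ := exists_rad A a hU h1
  obtain ⟨r', hr', k'⟩ := exists_rad B b hV h2
  refine ⟨min r r', lt_min hr hr', fun s hs s' hs' e => disjoint_left.1 h3
    (k s ⟨?_, ?_⟩) (e ▸ k' s' ⟨?_, ?_⟩)⟩
  all_goals linarith [hs.1, hs.2, hs'.1, hs'.2, min_le_left r r', min_le_right r r']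

theorem exists_off {T : Set ℝ} (hT : T.Countable) {a b : ℝ} (h : a < b) : ∃ s ∈ Ioo a b, s ∉ T := by
  by_contra k
  push Not at k
  have := (hT.mono k).measure_zero MeasureTheory.volume
  rw [Real.volume_Ioo, ENNReal.ofReal_eq_zero] at this
  linarith

theorem reach_countable {W C : Type} [Finite W] (X : Cx W C) (u : C × ℝ) :
    {v | Relation.ReflTransGen (X.Adj ∅) u v}.Countable := by
  let f : List (W × Bool) → C × ℝ := fun l => l.foldr (fun i v =>
    (X.cell (i.1, !i.2), X.j (i.1, !i.2) ((X.j i).symm v.2))) u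
  refine (countable_range f).mono fun v hv => ?_
  induction hv with
  | refl => exact ⟨[], rfl⟩
  | tail _ h ih =>
    obtain ⟨l, hl⟩ := ih
    obtain ⟨w, t, b, _, _, e, rfl⟩ := h
    refine ⟨(w, b) :: l, ?_⟩
    change (X.cell (w, !b), X.j (w, !b) ((X.j (w, b)).symm (f l).2)) = _
    rw [hl, e, OrderIso.symm_apply_apply]

end Pool.Agent.Work.MP_3d425c_gt.Ht
end

-- merged part: Pool.Agent.Work.MP_3d425c_gt.Ht.Prep
section
/-!
Escape paths from the bad nodes.
-/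

namespace Pool.Agent.Work.MP_3d425c_gt.Ht

open Set Filter Topology Pool.Agent.Work.MP_3d425c_gt.Gn

theorem ev_rad (A : Au) (a : ℝ) {U : Set ℝ} (hU : IsOpen U) (h : A a ∈ U) :
    ∀ᶠ r in 𝓝[>] (0 : ℝ), ∀ s ∈ Icc (a - r) (a + r), A s ∈ U := by
  obtain ⟨r, hr, k⟩ := exists_rad A a hU h
  filter_upwards [Ioo_mem_nhdsGT hr] with r' hr' s hs
  exact k s ⟨by linarith [hs.1, hr'.2], by linarith [hs.2, hr'.2]⟩

theorem ev_sep (A B : Au) {a b : ℝ} (h : A a ≠ B b) : ∀ᶠ r in 𝓝[>] (0 : ℝ),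
    ∀ s ∈ Icc (a - r) (a + r), ∀ s' ∈ Icc (b - r) (b + r), A s ≠ B s' := by
  obtain ⟨r, hr, k⟩ := exists_sep A B h
  filter_upwards [Ioo_mem_nhdsGT hr] with r' hr' s hs s' hs'
  exact k s ⟨by linarith [hs.1, hr'.2], by linarith [hs.2, hr'.2]⟩ s'
    ⟨by linarith [hs'.1, hr'.2], by linarith [hs'.2, hr'.2]⟩

theorem ev_imp {p : Prop} {q : ℝ → Prop} (h : p → ∀ᶠ r in 𝓝[>] (0 : ℝ), q r) :
    ∀ᶠ r in 𝓝[>] (0 : ℝ), p → q r := by
  by_cases k : p
  · exact (h k).mono fun _ a _ => a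
  · exact Eventually.of_forall fun _ a => absurd a k

theorem mem_Icc_conj (T : Au) {a b s : ℝ} : s ∈ Icc (T a) (T b) ↔ T.symm s ∈ Icc a b := by
  rw [mem_Icc, mem_Icc, T.le_symm_apply, T.symm_apply_le]

/-- Bad nodes, intervals around them and thin escape paths. -/
structure Prep {W C S : Type} (X : Cx W C) (F : Flow X S) (Z : Set (W × ℝ)) (Lam : C → Set ℝ) where
  Φ : Set (C × ℝ)
  fin : Φ.Finite
  α : ℝ → ℝ
  β : ℝ → ℝ
  lt : ∀ d, d ∈ Ioo (α d) (β d)
  hZ : ∀ z ∈ Z, ∀ b, (X.cell (z.1, b), X.j (z.1, b) z.2) ∈ Φ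
  hD : ∀ c, ∀ d ∈ F.D c, d ∈ Lam c → (c, d) ∈ Φ
  n : Φ × (S ⊕ Z × Bool) → ℕ
  c : Φ × (S ⊕ Z × Bool) → ℕ → C
  G : Φ × (S ⊕ Z × Bool) → ℕ → Au
  w : {q : (Φ × (S ⊕ Z × Bool)) × ℕ // q.2 < n q.1} → W × Bool
  pos : ∀ p, 0 < n p
  c0 : ∀ p, c p 0 = p.1.1.1
  G0 : ∀ p, G p 0 = 1
  cw : ∀ q, X.cell (w q) = c q.1.1 q.1.2
  cw' : ∀ q, X.cell ((w q).1, !(w q).2) = c q.1.1 (q.1.2 + 1)
  Gw : ∀ q, G q.1.1 (q.1.2 + 1) = X.j ((w q).1, !(w q).2) * (X.j (w q))⁻¹ * G q.1.1 q.1.2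
  thin : ∀ q, ∀ s ∈ Icc (α q.1.1.1.1.2) (β q.1.1.1.1.2),
    (X.j (w q)).symm (G q.1.1 q.1.2 s) ∈ Ioo (0 : ℝ) 1 ∧
      ((w q).1, (X.j (w q)).symm (G q.1.1 q.1.2 s)) ∉ Z
  off : ∀ d e, α d ∉ Lam e ∧ β d ∉ Lam e
  offG : ∀ p k d e, G p k (α d) ∉ Lam e ∧ G p k (β d) ∉ Lam e
  dj2 : ∀ p, ∀ φ ∈ Φ, φ.1 = c p (n p) → ∀ s ∈ Icc (α p.1.1.2) (β p.1.1.2),
    G p (n p) s ∉ Icc (α φ.2) (β φ.2)
  dj3 : ∀ p p', p ≠ p' → c p (n p) = c p' (n p') → ∀ s ∈ Icc (α p.1.1.2) (β p.1.1.2),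
    ∀ s' ∈ Icc (α p'.1.1.2) (β p'.1.1.2), G p (n p) s ≠ G p' (n p') s'

theorem finite_steps {P : Type} [Finite P] (n : P → ℕ) : Finite {q : P × ℕ // q.2 < n q.1} := by
  refine Finite.of_injective (β := Σ p : P, Fin (n p)) (fun q => ⟨q.1.1, ⟨q.1.2, q.2⟩⟩) ?_
  rintro ⟨⟨p, k⟩, h⟩ ⟨⟨p', k'⟩, h'⟩ e
  obtain rfl : p = p' := congrArg Sigma.fst e
  obtain rfl : k = k' := congrArg (fun x : Σ p : P, Fin (n p) => x.2.1) e
  rfl

theorem exists_prep {W C S : Type} [Finite C] [Finite S] (X : Cx W C) (F : Flow X S)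
    {Z : Set (W × ℝ)} (hZ : Z.Finite) {Lam : C → Set ℝ} (hL : ∀ c, (Lam c).Countable)
    (h1 : ∀ z ∈ Z, ∀ b, X.j (z.1, b) z.2 ∈ Lam (X.cell (z.1, b)))
    (h2 : ∀ c, ∀ s ∈ Lam c, {v | Relation.ReflTransGen (X.Adj Z) (c, s) v}.Infinite) :
    Nonempty (Prep X F Z Lam) := by
  obtain ⟨Φ, fin, a1, a2, a3⟩ : ∃ Φ : Set (C × ℝ), Φ.Finite ∧
      (∀ z ∈ Z, ∀ b, (X.cell (z.1, b), X.j (z.1, b) z.2) ∈ Φ) ∧
      (∀ c, ∀ d ∈ F.D c, d ∈ Lam c → (c, d) ∈ Φ) ∧ ∀ φ ∈ Φ, φ.2 ∈ Lam φ.1 := by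
    refine ⟨(⋃ b, (fun z : W × ℝ => (X.cell (z.1, b), X.j (z.1, b) z.2)) '' Z) ∪
      ⋃ c, Prod.mk c '' (F.D c ∩ Lam c), (finite_iUnion fun b => hZ.image _).union
      (finite_iUnion fun c => ((F.D c).finite_toSet.inter_of_left _).image _),
      fun z hz b => Or.inl (mem_iUnion.2 ⟨b, z, hz, rfl⟩),
      fun c d hd hd' => Or.inr (mem_iUnion.2 ⟨c, d, ⟨hd, hd'⟩, rfl⟩), ?_⟩
    rintro φ (h | h)
    · obtain ⟨b, z, hz, rfl⟩ := mem_iUnion.1 h
      exact h1 z hz b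
    · obtain ⟨c, d, hd, rfl⟩ := mem_iUnion.1 h
      exact hd.2
  have := fin.to_subtype
  have := hZ.to_subtype
  obtain ⟨b, hb, hb'⟩ := exists_inj (fun p : Φ × (S ⊕ Z × Bool) =>
    {v | Relation.ReflTransGen (X.Adj Z) p.1.1 v} \ Φ) fun p => (h2 _ _ (a3 _ p.1.2)).sdiff fin
  choose n c G k1 k2 k3 k4 using fun p => exists_path X Z (hb' p).1
  choose w w1 w2 w3 w4 w5 using k4
  have := finite_steps n
  have e1 : ∀ᶠ r in 𝓝[>] (0 : ℝ), ∀ q : {q : (Φ × (S ⊕ Z × Bool)) × ℕ // q.2 < n q.1},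
      ∀ s ∈ Icc (q.1.1.1.1.2 - r) (q.1.1.1.1.2 + r),
        ((X.j (w _ _ q.2))⁻¹ * G q.1.1 q.1.2) s ∈ Ioo (0 : ℝ) 1 ∩ {t | ((w _ _ q.2).1, t) ∈ Z}ᶜ :=
    eventually_all.2 fun q => ev_rad _ _ (isOpen_Ioo.inter
      (hZ.preimage (Prod.mk_right_injective _).injOn).isClosed.isOpen_compl) ⟨w1 _ _ q.2, w2 _ _ q.2⟩
  have e2 : ∀ᶠ r in 𝓝[>] (0 : ℝ), ∀ (p : Φ × (S ⊕ Z × Bool)) (φ : Φ), φ.1.1 = c p (n p) →
      ∀ s ∈ Icc (p.1.1.2 - r) (p.1.1.2 + r), ∀ s' ∈ Icc (φ.1.2 - r) (φ.1.2 + r),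
        G p (n p) s ≠ (1 : Au) s' :=
    eventually_all.2 fun p => eventually_all.2 fun φ => ev_imp fun h => ev_sep _ _ fun e =>
      (hb' p).2 (by rw [← k3, ← h, e]; exact φ.2)
  have e3 : ∀ᶠ r in 𝓝[>] (0 : ℝ), ∀ p p' : Φ × (S ⊕ Z × Bool), p ≠ p' → c p (n p) = c p' (n p') →
      ∀ s ∈ Icc (p.1.1.2 - r) (p.1.1.2 + r), ∀ s' ∈ Icc (p'.1.1.2 - r) (p'.1.1.2 + r),
        G p (n p) s ≠ G p' (n p') s' :=
    eventually_all.2 fun p => eventually_all.2 fun p' => ev_imp fun h => ev_imp fun h' =>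
      ev_sep _ _ fun e => h (hb (by rw [← k3, ← k3, h', e]))
  obtain ⟨r, ⟨⟨r1, r2⟩, r3⟩, hr⟩ := (((e1.and e2).and e3).and self_mem_nhdsWithin).exists
  have hr : 0 < r := hr
  have hT : ((⋃ e, Lam e) ∪ ⋃ p, ⋃ k, G p k ⁻¹' ⋃ e, Lam e).Countable :=
    (countable_iUnion hL).union (countable_iUnion fun p => countable_iUnion fun k =>
      (countable_iUnion hL).preimage (G p k).injective)
  choose α α1 α2 using fun d : ℝ => exists_off hT (show d - r < d by linarith)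
  choose β β1 β2 using fun d : ℝ => exists_off hT (show d < d + r by linarith)
  have sub : ∀ d, ∀ s ∈ Icc (α d) (β d), s ∈ Icc (d - r) (d + r) := fun d s hs =>
    ⟨(α1 d).1.le.trans hs.1, hs.2.trans (β1 d).2.le⟩
  simp only [mem_union, mem_iUnion, mem_preimage, not_or, not_exists] at α2 β2
  refine ⟨⟨Φ, fin, α, β, fun d => ⟨(α1 d).2, (β1 d).1⟩, a1, a2, n, c, G, fun q => w _ _ q.2,
    fun p => Nat.pos_of_ne_zero fun e => (hb' p).2 ?_, k1, k2, fun q => w3 _ _ q.2,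
    fun q => w4 _ _ q.2, fun q => w5 _ _ q.2, fun q s hs => r1 q s (sub _ s hs),
    fun d e => ⟨(α2 d).1 e, (β2 d).1 e⟩, fun p k d e => ⟨(α2 d).2 p k e, (β2 d).2 p k e⟩,
    fun p φ hφ e s hs k => r2 p ⟨φ, hφ⟩ e s (sub _ s hs) _ (sub _ _ k) rfl,
    fun p p' e e' s hs s' hs' => r3 p p' e e' s (sub _ s hs) s' (sub _ s' hs')⟩⟩
  rw [← k3, e, k1, k2]
  exact p.1.2

end Pool.Agent.Work.MP_3d425c_gt.Ht
end
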